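import Pool.Agent.R485.TransS.Diag

/-!
# An abstract diagonal argument, and the maximal functions
-/

set_option autoImplicit false

namespace Pool.Agent.R485.TransS

open Finset Filter Topology

/-- the rationals in `[0, 1)` with denominators composed of primes of `S` -/
def RS (S : Finset ℕ) : Set ℚ := {r | 0 ≤ r ∧ r < 1 ∧ r.den ∈ Nat.factoredNumbers S}

/-- **an abstract diagonal argument** -/
theorem diag {ι : Type} [Countable ι] (R : Set ℚ) (P : ι → ℚ → ℕ → Prop) (K : ι → ℝ)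
    (hK : ∀ (i : ι) (T : Finset ℚ), (T : Set ℚ) ⊆ R → ∃ N₀ : ℕ, ∀ N, N₀ ≤ N →
      (∀ r ∈ T, ¬ P i r N) → (T.card : ℝ) ≤ K i) (𝒩 : Set ℕ) (h𝒩 : 𝒩.Infinite) :
    ∃ φ : ℕ → ℕ, StrictMono φ ∧ (∀ j, φ j ∈ 𝒩) ∧ ∀ i : ι, ∃ E : Finset ℚ, (E : Set ℚ) ⊆ R ∧
      (E.card : ℝ) ≤ K i ∧ ∀ r ∈ R, r ∉ E → ∀ᶠ j in atTop, P i r (φ j) := by
  classical
  set f0 : Filter ℕ := atTop ⊓ 𝓟 𝒩 with hf0
  have hf0ne : NeBot f0 := by
    have h1 : ∃ᶠ n in atTop, n ∈ 𝒩 := Nat.frequently_atTop_iff_infinite.2 h𝒩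
    exact frequently_iff_neBot.1 h1
  set U : Ultrafilter ℕ := Ultrafilter.of f0 with hUdef
  have hU0 : (U : Filter ℕ) ≤ f0 := Ultrafilter.of_le f0
  have hU : (U : Filter ℕ) ≤ atTop := hU0.trans inf_le_left
  set Q : ι → ℚ → Set ℕ := fun i r => {N | P i r N} with hQ
  set Bd : ι → Set ℚ := fun i => {r | r ∈ R ∧ Q i r ∉ U} with hBd
  have hcard : ∀ (i : ι) (T : Finset ℚ), (T : Set ℚ) ⊆ Bd i → (T.card : ℝ) ≤ K i := by
    intro i T hT
    obtain ⟨N₀, hN₀⟩ := hK i T fun r hr => (hT hr).1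
    have h1 : (⋂ r ∈ T, (Q i r)ᶜ) ∈ (U : Filter ℕ) := by
      rw [Filter.biInter_finset_mem]
      intro r hr
      exact Ultrafilter.compl_mem_iff_notMem.2 (hT hr).2
    have h2 : {N : ℕ | N₀ ≤ N} ∈ (U : Filter ℕ) := hU (eventually_ge_atTop N₀)
    obtain ⟨N, hN1, hN2⟩ := U.neBot.nonempty_of_mem (Filter.inter_mem h1 h2)
    simp only [Set.mem_iInter] at hN1
    exact hN₀ N hN2 fun r hr => hN1 r hr
  have hfin : ∀ i, (Bd i).Finite := by
    intro i
    by_contra hinf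
    have hinf : (Bd i).Infinite := hinf
    obtain ⟨n, hn⟩ := exists_nat_gt (K i)
    obtain ⟨T, hT, hTn⟩ := hinf.exists_subset_card_eq n
    have := hcard i T hT
    rw [hTn] at this
    linarith
  set B : ι × ℚ → Set ℕ := fun p => {N | Q p.1 p.2 ∈ U → N ∈ Q p.1 p.2} with hB
  have hBU : ∀ p, B p ∈ U := by
    intro p
    by_cases hp : Q p.1 p.2 ∈ U
    · exact Filter.mem_of_superset hp fun N hN _ => hN
    · have : B p = Set.univ := by
        ext N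
        simp only [hB, Set.mem_ofPred_eq, Set.mem_univ, iff_true]
        exact fun h => absurd h hp
      rw [this]
      exact Filter.univ_mem
  set f : Filter ℕ := f0 ⊓ ⨅ p : ι × ℚ, 𝓟 (B p) with hf
  have hUf : (U : Filter ℕ) ≤ f := le_inf hU0 (le_iInf fun p => le_principal_iff.2 (hBU p))
  have hfne : NeBot f := U.neBot.mono hUf
  obtain ⟨u, hu⟩ := exists_seq_tendsto f
  have hu1 : Tendsto u atTop atTop := hu.mono_right (inf_le_left.trans inf_le_left)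
  obtain ⟨ψ, hψ, hψ2⟩ := strictMono_subseq_of_tendsto_atTop hu1
  have hu2 : Tendsto (u ∘ ψ) atTop f := hu.comp hψ.tendsto_atTop
  have hu3 : ∀ᶠ j in atTop, (u ∘ ψ) j ∈ 𝒩 := by
    have h1 : Tendsto (u ∘ ψ) atTop (𝓟 𝒩) := hu2.mono_right (inf_le_left.trans inf_le_right)
    exact tendsto_principal.1 h1
  obtain ⟨j0, hj0⟩ := eventually_atTop.1 hu3
  refine ⟨fun j => (u ∘ ψ) (j + j0), fun a b hab => hψ2 (by omega), fun j => hj0 _ (by omega),
    fun i => ⟨(hfin i).toFinset, ?_, hcard i _ (by simp), fun r hr hrE => ?_⟩⟩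
  · intro r hr
    rw [Set.Finite.coe_toFinset] at hr
    exact hr.1
  · have h2 : Q i r ∈ U := by
      by_contra hcon
      exact hrE ((hfin i).mem_toFinset.2 ⟨hr, hcon⟩)
    have h3 : ∀ᶠ j in atTop, (u ∘ ψ) j ∈ B (i, r) := by
      have h4 : Tendsto (u ∘ ψ) atTop (𝓟 (B (i, r))) :=
        hu2.mono_right (inf_le_right.trans (iInf_le _ _))
      exact tendsto_principal.1 h4
    have h4 : ∀ᶠ j in atTop, (u ∘ ψ) (j + j0) ∈ B (i, r) :=
      (tendsto_add_atTop_nat j0).eventually h3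
    filter_upwards [h4] with j hj
    exact hj h2

lemma ES_add_int (b n : ℕ) (z : ℝ) (j : ℤ) : ES b 1 0 n (z + j) = ES b 1 0 n z := by
  unfold ES
  refine sum_congr rfl fun i _ => ?_
  have : ((1 : ℕ) : ℝ) * ((z + j) * (b : ℝ) ^ i) = ((1 : ℕ) : ℝ) * (z * (b : ℝ) ^ i) +
      ((j * (b : ℤ) ^ i : ℤ) : ℝ) := by
    push_cast
    ring
  rw [this, Pool.Agent.H469R2.NK.e_add, e_int, mul_one]

/-- the condition for the maximal function -/
def Mx (b N : ℕ) (δ z : ℝ) : Prop := ∀ n, n ≤ N → ‖ES b 1 0 n z‖ ≤ δ * N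

lemma Mx.mono {b N : ℕ} {δ δ' z : ℝ} (h : Mx b N δ z) (hδ : δ ≤ δ') : Mx b N δ' z :=
  fun n hn => (h n hn).trans (mul_le_mul_of_nonneg_right hδ (Nat.cast_nonneg _))

lemma Mx.add_int {b N : ℕ} {δ z : ℝ} (h : Mx b N δ z) (j : ℤ) : Mx b N δ (z + j) := by
  intro n hn
  rw [ES_add_int]
  exact h n hn

/-- the number of bad translates for the maximal function -/
lemma count_Mx (S : Finset ℕ) (b : ℕ) (hS : ∀ q ∈ S, q.Prime ∧ ¬ q ∣ b) (hb : 2 ≤ b) (m : ℕ)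
    (hm : m ∈ Nat.factoredNumbers S) :
    ∃ N₀ : ℕ, ∀ N : ℕ, N₀ ≤ N → ∀ x δ : ℝ, 0 < δ → ∀ T : Finset ℕ, T ⊆ range m →
      (∀ a ∈ T, ¬ Mx b N δ (x + a / (m : ℝ))) → (T.card : ℝ) ≤ 100 * CS S b / δ ^ 2 := by
  have hm1 : 1 ≤ m := Nat.one_le_iff_ne_zero.2 (Nat.ne_zero_of_mem_factoredNumbers hm)
  have hm0 : (0 : ℝ) < m := by exact_mod_cast hm1
  set D : ℝ := √(CS S b) with hD
  have hD1 : (1 : ℝ) ≤ D := by
    rw [hD, show (1 : ℝ) = √1 by simp]
    exact Real.sqrt_le_sqrt (by exact_mod_cast CS_pos S b fun q hq => (hS q hq).1)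
  have h1 := (tend.comp tendsto_natCast_atTop_atTop).eventually_lt_const
    (by positivity : (0 : ℝ) < D / (2 * √m))
  obtain ⟨N1, hN1⟩ := eventually_atTop.1 h1
  refine ⟨max N1 1, fun N hN x δ hδ T hT hbad => ?_⟩
  have hNa := hN1 N ((le_max_left _ _).trans hN)
  have hNb : 1 ≤ N := (le_max_right _ _).trans hN
  have hN0 : (0 : ℝ) < N := by exact_mod_cast hNb
  have hlN : 0 ≤ Real.log N := Real.log_natCast_nonneg N
  simp only [Function.comp] at hNa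
  have hsN : √(N : ℝ) * √N = N := Real.mul_self_sqrt hN0.le
  have hsN0 : (0 : ℝ) < √(N : ℝ) := by positivity
  have hsm0 : (0 : ℝ) < √(m : ℝ) := by positivity
  have hcross : 4 * √m * √N * (1 + Real.log N) ≤ 2 * D * N := by
    rw [div_lt_div_iff₀ hsN0 (by positivity)] at hNa
    have h2 : 4 * √(m : ℝ) * √N * (1 + Real.log N) = 2 * √N * ((1 + Real.log N) * (2 * √m)) := by
      ring
    have h3 : 2 * D * (N : ℝ) = 2 * √N * (D * √N) := by
      have : 2 * √(N : ℝ) * (D * √N) = 2 * D * (√N * √N) := by ring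
      rw [this, hsN]
    rw [h2, h3]
    exact mul_le_mul_of_nonneg_left hNa.le (by positivity)
  obtain ⟨hk1, hk2⟩ := clog_facts N hNb
  set k := Nat.clog 2 N with hk
  have h3 := mean_GG S b hS hb x m 1 k hm le_rfl
  have e2 : √2 ^ k ≤ 2 * √N := by
    have h5 : √2 ^ k = √(2 ^ k) := by
      symm
      rw [Real.sqrt_eq_iff_mul_self_eq (by positivity) (by positivity), ← mul_pow,
        Real.mul_self_sqrt (by norm_num)]
    rw [h5]
    apply Real.sqrt_le_iff.2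
    refine ⟨by positivity, ?_⟩
    rw [mul_pow, Real.sq_sqrt (by positivity)]
    linarith
  have e3 : ((k : ℝ) + 1) * √2 ^ k ≤ 2 * (1 + Real.log N) * (2 * √N) := by gcongr
  have e4 : √(m : ℝ) * ((k + 1) * √2 ^ k) ≤ √m * (2 * (1 + Real.log N) * (2 * √N)) := by gcongr
  have e5 : √(m : ℝ) * (2 * (1 + Real.log N) * (2 * √N)) = 4 * √m * √N * (1 + Real.log N) := by
    ring
  have h4 : nrm m (fun a => GG b 1 k (x + a / (m : ℝ))) ≤ 10 * D * N := by
    refine h3.trans ?_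
    rw [Nat.gcd_one_right, Nat.cast_one, Real.sqrt_one, one_mul, ← hD]
    have e1 : 4 * 2 ^ k * D ≤ 4 * (2 * N) * D := by gcongr
    linarith
  have hlow : ∀ a ∈ T, (δ * N) ^ 2 ≤ GG b 1 k (x + a / (m : ℝ)) ^ 2 := by
    intro a ha
    apply pow_le_pow_left₀ (by positivity)
    by_contra hcon
    push Not at hcon
    apply hbad a ha
    intro n hn
    exact (chain b 1 k n (hn.trans (Nat.le_pow_clog (by norm_num) N)) _).trans hcon.le
  have h2 : (T.card : ℝ) * (δ * N) ^ 2 ≤ nrm m (fun a => GG b 1 k (x + a / (m : ℝ))) ^ 2 := by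
    rw [nrm_sq]
    calc (T.card : ℝ) * (δ * N) ^ 2 = ∑ a ∈ T, (δ * N) ^ 2 := by rw [sum_const, nsmul_eq_mul]
      _ ≤ ∑ a ∈ T, GG b 1 k (x + a / (m : ℝ)) ^ 2 := sum_le_sum hlow
      _ ≤ _ := sum_le_sum_of_subset_of_nonneg hT fun _ _ _ => by positivity
  have h5 := h2.trans (pow_le_pow_left₀ (nrm_nonneg _ _) h4 2)
  have h6 : (10 * D * (N : ℝ)) ^ 2 = 100 * CS S b / δ ^ 2 * (δ * N) ^ 2 := by
    rw [mul_pow, mul_pow, hD, Real.sq_sqrt (Nat.cast_nonneg _)]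
    field_simp
    ring
  rw [h6] at h5
  exact le_of_mul_le_mul_right h5 (by positivity)

/-- the form used in the diagonal argument -/
lemma count_Mx' (S : Finset ℕ) (b : ℕ) (hS : ∀ q ∈ S, q.Prime ∧ ¬ q ∣ b) (hb : 2 ≤ b) (x δ : ℝ)
    (hδ : 0 < δ) (T : Finset ℚ) (hT : (T : Set ℚ) ⊆ RS S) :
    ∃ N₀ : ℕ, ∀ N : ℕ, N₀ ≤ N → (∀ r ∈ T, ¬ Mx b N δ (x + r)) →
      (T.card : ℝ) ≤ 100 * CS S b / δ ^ 2 := by
  classical
  have hden : ∀ r ∈ T, r.den ∈ Nat.factoredNumbers S := fun r hr => (hT hr).2.2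
  set m := ∏ r ∈ T, r.den with hm
  have hmS := prod_den S T hden
  have hm0 : m ≠ 0 := Nat.ne_zero_of_mem_factoredNumbers hmS
  have hmQ : (0 : ℚ) < m := by exact_mod_cast Nat.pos_of_ne_zero hm0
  obtain ⟨N₀, hN₀⟩ := count_Mx S b hS hb m hmS
  refine ⟨N₀, fun N hN hbad => ?_⟩
  have hg : ∀ r : ℚ, r ∈ T → ∃ a : ℕ, (a : ℚ) = r * m := by
    intro r hr
    obtain ⟨c, hc⟩ : r.den ∣ m := Finset.dvd_prod_of_mem _ hr
    have h3 : 0 ≤ r := (hT hr).1
    refine ⟨r.num.toNat * c, ?_⟩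
    have h4 : ((r.num.toNat : ℕ) : ℚ) = r.num := by
      have : ((r.num.toNat : ℕ) : ℤ) = r.num := Int.toNat_of_nonneg (Rat.num_nonneg.2 h3)
      exact_mod_cast this
    have h5 : r * r.den = r.num := Rat.mul_den_eq_num r
    rw [hc]
    push_cast
    rw [h4, ← h5]
    ring
  choose! g hg using hg
  have hinj : Set.InjOn g T := by
    intro r hr s hs h
    have h3 := hg r hr
    have h4 := hg s hs
    rw [h] at h3
    have h5 : s * (m : ℚ) = r * m := by rw [← h4, ← h3]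
    exact (mul_right_cancel₀ hmQ.ne' h5).symm
  have hcard : (T.image g).card = T.card := card_image_of_injOn hinj
  have h3 : T.image g ⊆ range m := by
    intro a ha
    rw [mem_image] at ha
    obtain ⟨r, hr, rfl⟩ := ha
    rw [mem_range]
    have h4 : ((g r : ℕ) : ℚ) < m := by
      rw [hg r hr]
      have := (hT hr).2.1
      nlinarith
    exact_mod_cast h4
  rw [← hcard]
  refine hN₀ N hN x δ hδ (T.image g) h3 ?_
  intro a ha
  rw [mem_image] at ha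
  obtain ⟨r, hr, rfl⟩ := ha
  have h5 : ((g r : ℕ) : ℝ) / (m : ℝ) = (r : ℝ) := by
    have h6 : ((g r : ℕ) : ℚ) / (m : ℚ) = r := by
      rw [hg r hr]
      field_simp
    have h7 := congrArg (Rat.cast : ℚ → ℝ) h6
    push_cast at h7
    exact h7
  rw [h5]
  exact hbad r hr

end Pool.Agent.R485.TransS
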