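import Pool.Agent.Y951.TU.Test
import Pool.Agent.Y933.KD.Power

/-!
# A quantitative criterion of Weyl for boxes
-/

set_option autoImplicit false

namespace Pool.Agent.R485.TransS

open Finset Real MeasureTheory
open Pool.Agent.Y933.KD (e e_zero e_add norm_e e_sum Leb hat_Leb ind)
open Pool.Agent.Y951.TU (hat test)
open scoped ENNReal

/-- the linear forms -/
noncomputable def lin (r : ℕ) : (Fin r → ℤ) →+ ((Fin r → ℝ) → ℝ) where
  toFun l := fun x => ∑ j, l j * x j
  map_zero' := by funext x; simp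
  map_add' l l' := by
    funext x
    simp only [Pi.add_apply]
    rw [← sum_add_distrib]
    refine sum_congr rfl fun j _ => ?_
    push_cast
    ring

lemma lin_apply {r : ℕ} (l : Fin r → ℤ) (x : Fin r → ℝ) : lin r l x = ∑ j, l j * x j := rfl

lemma measurable_lin {r : ℕ} (l : Fin r → ℤ) : Measurable (lin r l) := by
  have : lin r l = fun x : Fin r → ℝ => ∑ j, (l j : ℝ) * x j := rfl
  rw [this]
  fun_prop

/-- Lebesgue measure on the unit cube -/
noncomputable def Cube (r : ℕ) : Measure (Fin r → ℝ) := Measure.pi fun _ => Leb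

instance (r : ℕ) : IsProbabilityMeasure (Cube r) := by unfold Cube; infer_instance

lemma hat_Cube {r : ℕ} (l : Fin r → ℤ) (hl : l ≠ 0) : hat (lin r) (Cube r) l = 0 := by
  obtain ⟨j0, hj0⟩ : ∃ j, l j ≠ 0 := by
    by_contra hcon
    push Not at hcon
    exact hl (funext hcon)
  unfold hat Cube
  have h1 : ∀ x : Fin r → ℝ, e (lin r l x) = ∏ j, e (l j * x j) := fun x => by
    rw [lin_apply, e_sum]
  simp only [h1]
  rw [integral_fintype_prod_eq_prod (fun j (t : ℝ) => e (l j * t))]
  exact prod_eq_zero (mem_univ j0) (hat_Leb _ hj0)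

/-- the uniform probability measure on the family `x m`, `m ∈ s` -/
noncomputable def unif {ι : Type*} {r : ℕ} (s : Finset ι) (x : ι → Fin r → ℝ) :
    Measure (Fin r → ℝ) := (s.card : ℝ≥0∞)⁻¹ • ∑ m ∈ s, Measure.dirac (x m)

lemma unif_prob {ι : Type*} {r : ℕ} {s : Finset ι} (hs : s.Nonempty) (x : ι → Fin r → ℝ) :
    IsProbabilityMeasure (unif s x) := by
  refine ⟨?_⟩
  unfold unif
  rw [Measure.smul_apply, Measure.finsetSum_apply]
  simp only [measure_univ, sum_const, smul_eq_mul, nsmul_eq_mul, mul_one]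
  refine ENNReal.inv_mul_cancel ?_ (ENNReal.natCast_ne_top _)
  exact_mod_cast (Finset.card_pos.2 hs).ne'

lemma integral_unif {ι : Type*} {r : ℕ} (s : Finset ι) (x : ι → Fin r → ℝ) (f : (Fin r → ℝ) → ℂ) :
    ∫ t, f t ∂(unif s x) = (1 / s.card) * ∑ m ∈ s, f (x m) := by
  unfold unif
  rw [integral_smul_measure, integral_finsetSum_measure]
  · simp only [integral_dirac, ENNReal.toReal_inv, ENNReal.toReal_natCast]
    rw [Complex.real_smul]
    push_cast
    rw [one_div]
  · intro m _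
    exact integrable_dirac (by simp)

lemma integral_unif' {ι : Type*} {r : ℕ} (s : Finset ι) (x : ι → Fin r → ℝ) (f : (Fin r → ℝ) → ℝ) :
    ∫ t, f t ∂(unif s x) = (1 / s.card) * ∑ m ∈ s, f (x m) := by
  have h1 := integral_unif s x (fun t => ((f t : ℝ) : ℂ))
  rw [integral_complex_ofReal] at h1
  apply Complex.ofReal_injective
  rw [h1]
  push_cast
  rfl

lemma int_ind (u v : ℝ) (hu : 0 ≤ u) (huv : u ≤ v) (hv : v ≤ 1) : ∫ t, ind u v t ∂Leb = v - u := by
  unfold Leb
  have h1 : ∫ t in Set.Ico (0 : ℝ) 1, ind u v t = ∫ t in Set.Ico (0 : ℝ) 1,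
      (Set.Ico u v).indicator (fun _ => (1 : ℝ)) t := by
    apply setIntegral_congr_fun measurableSet_Ico
    intro t ht
    have h2 : Int.fract t = t := Int.fract_eq_self.2 ht
    simp only [ind, h2, Set.indicator, Set.mem_Ico]
  rw [h1, setIntegral_indicator measurableSet_Ico]
  have h2 : Set.Ico (0 : ℝ) 1 ∩ Set.Ico u v = Set.Ico u v := by
    apply Set.inter_eq_right.2
    intro t ht
    exact ⟨hu.trans ht.1, lt_of_lt_of_le ht.2 hv⟩
  rw [h2]
  simp only [integral_const, MeasurableSet.univ, measureReal_restrict_apply, Set.univ_inter,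
    Real.volume_real_Ico, smul_eq_mul, mul_one]
  exact max_eq_left (by linarith)

/-- **a quantitative criterion of Weyl for boxes** -/
theorem weyl_box {d K : ℕ} (hK : 0 < K) (s : Finset ℕ) (hs : s.Nonempty) (y : ℕ → Fin d → ℝ) (Δ : ℝ)
    (hΔ0 : 0 ≤ Δ) (hΔ : ∀ h : Fin d → ℤ, h ≠ 0 → (∀ i, |h i| ≤ (K : ℤ) ^ 3) →
      ‖∑ n ∈ s, e (∑ i, h i * y n i)‖ ≤ Δ * s.card)
    (u v : Fin d → ℝ) (hu : ∀ i, 0 ≤ u i) (huv : ∀ i, u i ≤ v i) (hv : ∀ i, v i ≤ 1) :
    |((s.filter (fun n => ∀ i, u i ≤ Int.fract (y n i) ∧ Int.fract (y n i) < v i)).card : ℝ) -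
      s.card * ∏ i, (v i - u i)| ≤ ((2 * (K : ℝ) ^ 3 + 1) ^ d * Δ + d * (12 / K + 5 * Δ)) * s.card := by
  classical
  have := unif_prob hs y
  have hc : (0 : ℝ) < s.card := by exact_mod_cast Finset.card_pos.2 hs
  have hq : ∀ h : Fin d → ℤ, ∑ i, h i • (Pi.single i 1 : Fin d → ℤ) = h := by
    intro h
    funext j
    simp only [Finset.sum_apply, Pi.smul_apply, Pi.single_apply, smul_eq_mul]
    simp
  have h1 := test hK (φ := lin d) measurable_lin (unif s y) (Cube d) hat_Cube
    (fun i => Pi.single i 1) (fun i h hh h0 => by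
      have := congrFun h0 i
      simp at this
      exact hh this) Δ (fun h hh hne => by
      rw [hq] at hne ⊢
      unfold hat
      rw [integral_unif]
      have h2 := hΔ h hne hh
      rw [norm_mul]
      have h3 : ‖(1 / (s.card : ℂ))‖ = 1 / s.card := by
        rw [norm_div, norm_one, Complex.norm_natCast]
      rw [h3]
      calc 1 / (s.card : ℝ) * ‖∑ m ∈ s, e (lin d h (y m))‖ ≤ 1 / s.card * (Δ * s.card) := by
            gcongr
            exact h2
        _ = Δ := by field_simp) hΔ0 u v hu hv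
  have h2 : ∀ i : Fin d, ∀ x : Fin d → ℝ, lin d (Pi.single i 1) x = x i := by
    intro i x
    rw [lin_apply]
    simp [Pi.single_apply]
  simp only [h2] at h1
  have h3 : ∫ x, ∏ i, ind (u i) (v i) (x i) ∂(Cube d) = ∏ i, (v i - u i) := by
    unfold Cube
    rw [integral_fintype_prod_eq_prod (fun i (t : ℝ) => ind (u i) (v i) t)]
    exact prod_congr rfl fun i _ => int_ind _ _ (hu i) (huv i) (hv i)
  have h4 : ∫ x, ∏ i, ind (u i) (v i) (x i) ∂(unif s y) = 1 / s.card *
      ((s.filter (fun n => ∀ i, u i ≤ Int.fract (y n i) ∧ Int.fract (y n i) < v i)).card : ℝ) := by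
    rw [integral_unif' s y (fun x => ∏ i, ind (u i) (v i) (x i))]
    congr 1
    rw [card_filter]
    push_cast
    refine sum_congr rfl fun n _ => ?_
    unfold ind
    by_cases h : ∀ i, u i ≤ Int.fract (y n i) ∧ Int.fract (y n i) < v i
    · rw [if_pos h]
      exact prod_eq_one fun i _ => if_pos (h i)
    · rw [if_neg h]
      push Not at h
      obtain ⟨i, hi⟩ := h
      exact prod_eq_zero (mem_univ i) (if_neg fun h' => absurd h'.2 (not_lt.2 (hi h'.1)))
  rw [h3, h4] at h1
  have h5 : ((s.filter (fun n => ∀ i, u i ≤ Int.fract (y n i) ∧ Int.fract (y n i) < v i)).card : ℝ) -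
      s.card * ∏ i, (v i - u i) = s.card * (1 / s.card *
      ((s.filter (fun n => ∀ i, u i ≤ Int.fract (y n i) ∧ Int.fract (y n i) < v i)).card : ℝ) -
      ∏ i, (v i - u i)) := by
    field_simp
  rw [h5, abs_mul, abs_of_pos hc, mul_comm]
  exact mul_le_mul_of_nonneg_right h1 hc.le

end Pool.Agent.R485.TransS
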