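import Pool.Agent.R485.TransS.Main

/-!
# The number of bad translates is bounded
-/

set_option autoImplicit false

namespace Pool.Agent.R485.TransS

open Finset Filter Topology

lemma tend : Tendsto (fun y : ℝ => (1 + Real.log y) / √y) atTop (𝓝 0) := by
  have h1 : (fun u : ℝ => 1 + Real.log u) =o[atTop] (fun u : ℝ => u ^ (1 / 2 : ℝ)) := by
    apply Asymptotics.IsLittleO.add
    · exact Asymptotics.isLittleO_const_left.2 (Or.inr (by
        refine tendsto_norm_atTop_atTop.comp (tendsto_rpow_atTop (by positivity))))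
    · exact isLittleO_log_rpow_atTop (by positivity)
  have h2 := h1.tendsto_div_nhds_zero
  refine h2.congr fun y => ?_
  rw [Real.sqrt_eq_rpow]

lemma Dis.mono {b N : ℕ} {E E' z : ℝ} (h : Dis b N E z) (hE : E ≤ E') : Dis b N E' z :=
  fun n hn α β h0 h1 h2 => (h n hn α β h0 h1 h2).trans hE

lemma Dis.add_int {b N : ℕ} {E z : ℝ} (h : Dis b N E z) (j : ℤ) : Dis b N E (z + j) := by
  intro n hn α β h0 h1 h2
  have h3 : ∀ i : ℕ, Int.fract ((z + j) * (b : ℝ) ^ i) = Int.fract (z * (b : ℝ) ^ i) := by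
    intro i
    have : (z + j) * (b : ℝ) ^ i = z * (b : ℝ) ^ i + ((j * (b : ℤ) ^ i : ℤ) : ℝ) := by
      push_cast
      ring
    rw [this, Int.fract_add_intCast]
  simp_rw [h3]
  exact h n hn α β h0 h1 h2

lemma count_one (S : Finset ℕ) (b : ℕ) (hS : ∀ q ∈ S, q.Prime ∧ ¬ q ∣ b) (hb : 2 ≤ b) :
    ∃ C : ℝ, 0 ≤ C ∧ ∀ m ∈ Nat.factoredNumbers S, ∃ N₀ : ℕ, ∀ N : ℕ, N₀ ≤ N → ∀ x ε : ℝ,
      0 < ε → ε ≤ 1 → ∀ T : Finset ℕ, T ⊆ range m →
        (∀ a ∈ T, ¬ Dis b N (ε * N) (x + a / (m : ℝ))) →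
          (T.card : ℝ) ≤ C * ((1 + Real.log (1 / ε)) / ε) ^ 2 := by
  obtain ⟨C0, hC01, hC0⟩ := exists_const S
  set D : ℝ := √(CS S b) * C0 with hD
  have hCS : (1 : ℝ) ≤ √(CS S b) := by
    rw [show (1 : ℝ) = √1 by simp]
    exact Real.sqrt_le_sqrt (by exact_mod_cast CS_pos S b fun q hq => (hS q hq).1)
  have hD1 : 1 ≤ D := by rw [hD]; nlinarith
  refine ⟨(384 * D) ^ 2, by positivity, fun m hm => ?_⟩
  have hm1 : 1 ≤ m := Nat.one_le_iff_ne_zero.2 (Nat.ne_zero_of_mem_factoredNumbers hm)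
  have hm0 : (0 : ℝ) < m := by exact_mod_cast hm1
  have h1 := (tend.comp tendsto_natCast_atTop_atTop).eventually_lt_const
    (by positivity : (0 : ℝ) < 2 * D / √m)
  obtain ⟨N1, hN1⟩ := eventually_atTop.1 h1
  refine ⟨max N1 1, fun N hN x ε hε hε1 T hT hbad => ?_⟩
  have hNa := hN1 N ((le_max_left _ _).trans hN)
  have hNb : 1 ≤ N := (le_max_right _ _).trans hN
  have hN0 : (0 : ℝ) < N := by exact_mod_cast hNb
  have hlN : 0 ≤ Real.log N := Real.log_natCast_nonneg N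
  simp only [Function.comp] at hNa
  have hsN : √(N : ℝ) * √N = N := Real.mul_self_sqrt hN0.le
  have hsN0 : (0 : ℝ) < √(N : ℝ) := by positivity
  have hsm0 : (0 : ℝ) < √(m : ℝ) := by positivity
  have hcross : 4 * √m * √N * (1 + Real.log N) ≤ 8 * D * N := by
    rw [div_lt_div_iff₀ hsN0 hsm0] at hNa
    have h2 : 4 * √(m : ℝ) * √N * (1 + Real.log N) = 4 * √N * ((1 + Real.log N) * √m) := by ring
    have h3 : 8 * D * (N : ℝ) = 4 * √N * (2 * D * √N) := by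
      have : 4 * √(N : ℝ) * (2 * D * √N) = 8 * D * (√N * √N) := by ring
      rw [this, hsN]
    rw [h2, h3]
    exact mul_le_mul_of_nonneg_left hNa.le (by positivity)
  set H : ℕ := ⌈64 / ε ^ 2⌉₊ with hH
  have hHl : 64 / ε ^ 2 ≤ H := Nat.le_ceil _
  have hε2 : (0 : ℝ) < ε ^ 2 := by positivity
  have hε21 : ε ^ 2 ≤ 1 := pow_le_one₀ hε.le hε1
  have hH64 : (64 : ℝ) ≤ H := by
    refine le_trans ?_ hHl
    rw [le_div_iff₀ hε2]
    linarith
  have hH1 : 1 ≤ H := by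
    have : (1 : ℝ) ≤ H := by linarith
    exact_mod_cast this
  have hHu : (H : ℝ) ≤ 65 / ε ^ 2 := by
    have h2 : (H : ℝ) < 64 / ε ^ 2 + 1 := Nat.ceil_lt_add_one (by positivity)
    have h3 : (65 : ℝ) / ε ^ 2 = 64 / ε ^ 2 + 1 / ε ^ 2 := by ring
    have h4 : (1 : ℝ) ≤ 1 / ε ^ 2 := by rw [le_div_iff₀ hε2]; linarith
    linarith
  have hsH : 8 / ε ≤ √(H : ℝ) := by
    apply Real.le_sqrt_of_sq_le
    rw [div_pow]
    norm_num
    exact hHl
  have hlogε : 0 ≤ Real.log (1 / ε) := Real.log_nonneg (by rw [le_div_iff₀ hε]; linarith)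
  have hlogH : 1 + Real.log H ≤ 6 * (1 + Real.log (1 / ε)) := by
    have h2 : Real.log H ≤ Real.log (65 / ε ^ 2) :=
      Real.log_le_log (by exact_mod_cast hH1) hHu
    have h3 : (65 : ℝ) / ε ^ 2 = 65 * (1 / ε) ^ 2 := by ring
    rw [h3, Real.log_mul (by norm_num) (by positivity), Real.log_pow] at h2
    have h4 : Real.log 65 ≤ 5 := by
      have h5 : Real.log 65 ≤ Real.log (2 ^ 7) := Real.log_le_log (by norm_num) (by norm_num)
      rw [Real.log_pow] at h5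
      have := Real.log_two_lt_d9
      push_cast at h5
      linarith
    push_cast at h2
    linarith
  have hlH0 : 0 ≤ Real.log H := Real.log_natCast_nonneg H
  have hlow : ∀ a ∈ T, (ε * N / 4) ^ 2 ≤ TT b H (Nat.clog 2 N) (x + a / (m : ℝ)) ^ 2 := by
    intro a ha
    apply pow_le_pow_left₀ (by positivity)
    by_contra hcon
    push Not at hcon
    apply hbad a ha
    apply (dev b H (Nat.clog 2 N) N hH1 (Nat.le_pow_clog (by norm_num) N) (x + a / (m : ℝ))).mono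
    unfold Eb
    have h2 : 4 * (N : ℝ) / √H ≤ ε * N / 2 := by
      have h3 : 4 * (N : ℝ) / √H ≤ 4 * N / (8 / ε) := by gcongr
      refine h3.trans (le_of_eq ?_)
      field_simp
      ring
    linarith
  have h2 : (T.card : ℝ) * (ε * N / 4) ^ 2 ≤
      nrm m (fun a => TT b H (Nat.clog 2 N) (x + a / (m : ℝ))) ^ 2 := by
    rw [nrm_sq]
    calc (T.card : ℝ) * (ε * N / 4) ^ 2 = ∑ a ∈ T, (ε * N / 4) ^ 2 := by
          rw [sum_const, nsmul_eq_mul]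
      _ ≤ ∑ a ∈ T, TT b H (Nat.clog 2 N) (x + a / (m : ℝ)) ^ 2 := sum_le_sum hlow
      _ ≤ _ := sum_le_sum_of_subset_of_nonneg hT fun _ _ _ => by positivity
  have h3 := nrm_TT S b hS hb C0 hC0 x m N H hm hNb
  have h4 : nrm m (fun a => TT b H (Nat.clog 2 N) (x + a / (m : ℝ))) ≤
      16 * D * N * (6 * (1 + Real.log (1 / ε))) := by
    refine h3.trans ?_
    apply mul_le_mul _ hlogH (by linarith) (by positivity)
    have : 8 * √(CS S b : ℝ) * C0 * N = 8 * D * N := by rw [hD]; ring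
    rw [this]
    linarith
  have h5 := h2.trans (pow_le_pow_left₀ (nrm_nonneg _ _) h4 2)
  have h6 : (16 * D * N * (6 * (1 + Real.log (1 / ε)))) ^ 2 =
      (384 * D) ^ 2 * ((1 + Real.log (1 / ε)) / ε) ^ 2 * (ε * N / 4) ^ 2 := by
    field_simp
    ring
  rw [h6] at h5
  exact le_of_mul_le_mul_right h5 (by positivity)

/-- **the number of bad translates is bounded** -/
theorem count_bad (S 𝓑 : Finset ℕ) (hS : ∀ q ∈ S, q.Prime)
    (h𝓑 : ∀ b ∈ 𝓑, 2 ≤ b ∧ ∀ q ∈ S, ¬ q ∣ b) :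
    ∃ C : ℝ, 0 ≤ C ∧ ∀ m ∈ Nat.factoredNumbers S, ∃ N₀ : ℕ, ∀ N : ℕ, N₀ ≤ N → ∀ x ε : ℝ,
      0 < ε → ε ≤ 1 → ∀ T : Finset ℕ, T ⊆ range m →
        (∀ a ∈ T, ¬ ∀ b ∈ 𝓑, Dis b N (ε * N) (x + a / (m : ℝ))) →
          (T.card : ℝ) ≤ C * ((1 + Real.log (1 / ε)) / ε) ^ 2 := by
  classical
  have h1 : ∀ b : ℕ, ∃ C : ℝ, 0 ≤ C ∧ (b ∈ 𝓑 → ∀ m ∈ Nat.factoredNumbers S, ∃ N₀ : ℕ, ∀ N : ℕ,
      N₀ ≤ N → ∀ x ε : ℝ, 0 < ε → ε ≤ 1 → ∀ T : Finset ℕ, T ⊆ range m →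
        (∀ a ∈ T, ¬ Dis b N (ε * N) (x + a / (m : ℝ))) →
          (T.card : ℝ) ≤ C * ((1 + Real.log (1 / ε)) / ε) ^ 2) := by
    intro b
    by_cases hb : b ∈ 𝓑
    · obtain ⟨C, hC, h⟩ := count_one S b (fun q hq => ⟨hS q hq, (h𝓑 b hb).2 q hq⟩) (h𝓑 b hb).1
      exact ⟨C, hC, fun _ => h⟩
    · exact ⟨0, le_rfl, fun h => absurd h hb⟩
  choose C hC0 hC using h1
  refine ⟨∑ b ∈ 𝓑, C b, sum_nonneg fun b _ => hC0 b, fun m hm => ?_⟩
  have h2 : ∀ b : ℕ, ∃ N₀ : ℕ, (b ∈ 𝓑 → ∀ N : ℕ,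
      N₀ ≤ N → ∀ x ε : ℝ, 0 < ε → ε ≤ 1 → ∀ T : Finset ℕ, T ⊆ range m →
        (∀ a ∈ T, ¬ Dis b N (ε * N) (x + a / (m : ℝ))) →
          (T.card : ℝ) ≤ C b * ((1 + Real.log (1 / ε)) / ε) ^ 2) := by
    intro b
    by_cases hb : b ∈ 𝓑
    · obtain ⟨N₀, h⟩ := hC b hb m hm
      exact ⟨N₀, fun _ => h⟩
    · exact ⟨0, fun h => absurd h hb⟩
  choose N₀ hN₀ using h2
  refine ⟨𝓑.sup N₀, fun N hN x ε hε hε1 T hT hbad => ?_⟩
  have h3 : T ⊆ 𝓑.biUnion fun b => T.filter fun a : ℕ => ¬ Dis b N (ε * N) (x + a / (m : ℝ)) := by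
    intro a ha
    have := hbad a ha
    push Not at this
    obtain ⟨b, hb, h⟩ := this
    rw [mem_biUnion]
    exact ⟨b, hb, mem_filter.2 ⟨ha, h⟩⟩
  have h4 : (T.card : ℝ) ≤ ∑ b ∈ 𝓑,
      ((T.filter fun a : ℕ => ¬ Dis b N (ε * N) (x + a / (m : ℝ))).card : ℝ) := by
    exact_mod_cast (card_le_card h3).trans card_biUnion_le
  refine h4.trans ?_
  rw [sum_mul]
  refine sum_le_sum fun b hb => ?_
  exact hN₀ b hb N ((Finset.le_sup hb).trans hN) x ε hε hε1 _ ((filter_subset _ _).trans hT)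
    fun a ha => (mem_filter.1 ha).2

end Pool.Agent.R485.TransS
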