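import Pool.Agent.R485.TransS.Count

/-!
# One sequence of stages for countably many numbers
-/

set_option autoImplicit false

namespace Pool.Agent.R485.TransS

open Finset Filter Topology

/-- the good stages -/
def AA (𝓑 : Finset ℕ) (x : ℝ) (i : ℕ) (r : ℚ) : Set ℕ :=
  {N | ∀ b ∈ 𝓑, Dis b N (1 / ((i : ℝ) + 1) * N) (x + r)}

/-- the bad translates -/
def Bad (S 𝓑 : Finset ℕ) (U : Ultrafilter ℕ) (x : ℝ) (i : ℕ) : Set ℚ :=
  {r | 0 ≤ r ∧ r < 1 ∧ r.den ∈ Nat.factoredNumbers S ∧ AA 𝓑 x i r ∉ U}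

lemma prod_den (S : Finset ℕ) (T : Finset ℚ) (hT : ∀ r ∈ T, r.den ∈ Nat.factoredNumbers S) :
    ∏ r ∈ T, r.den ∈ Nat.factoredNumbers S := by
  classical
  induction T using Finset.induction_on with
  | empty =>
    rw [prod_empty, Nat.mem_factoredNumbers']
    intro p hp hd
    exact absurd (Nat.dvd_one.1 hd) hp.one_lt.ne'
  | insert a T ha ih =>
    rw [prod_insert ha]
    exact Nat.mul_mem_factoredNumbers (hT a (mem_insert_self _ _))
      (ih fun r hr => hT r (mem_insert_of_mem hr))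

lemma card_bad (S 𝓑 : Finset ℕ) (C : ℝ) (hC : ∀ m ∈ Nat.factoredNumbers S, ∃ N₀ : ℕ, ∀ N : ℕ,
      N₀ ≤ N → ∀ x ε : ℝ, 0 < ε → ε ≤ 1 → ∀ T : Finset ℕ, T ⊆ range m →
        (∀ a ∈ T, ¬ ∀ b ∈ 𝓑, Dis b N (ε * N) (x + a / (m : ℝ))) →
          (T.card : ℝ) ≤ C * ((1 + Real.log (1 / ε)) / ε) ^ 2)
    (U : Ultrafilter ℕ) (hU : (U : Filter ℕ) ≤ atTop) (x : ℝ) (i : ℕ) (T : Finset ℚ)
    (hT : (T : Set ℚ) ⊆ Bad S 𝓑 U x i) :
    (T.card : ℝ) ≤ C * ((1 + Real.log (i + 1)) * (i + 1)) ^ 2 := by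
  classical
  have hden : ∀ r ∈ T, r.den ∈ Nat.factoredNumbers S := fun r hr => (hT hr).2.2.1
  set m := ∏ r ∈ T, r.den with hm
  have hmS := prod_den S T hden
  have hm0 : m ≠ 0 := Nat.ne_zero_of_mem_factoredNumbers hmS
  have hmQ : (0 : ℚ) < m := by exact_mod_cast Nat.pos_of_ne_zero hm0
  obtain ⟨N₀, hN₀⟩ := hC m hmS
  have h1 : (⋂ r ∈ T, (AA 𝓑 x i r)ᶜ) ∈ (U : Filter ℕ) := by
    rw [Filter.biInter_finset_mem]
    intro r hr
    exact Ultrafilter.compl_mem_iff_notMem.2 (hT hr).2.2.2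
  have h2 : {N : ℕ | N₀ ≤ N} ∈ (U : Filter ℕ) := hU (eventually_ge_atTop N₀)
  obtain ⟨N, hN1, hN2⟩ := U.neBot.nonempty_of_mem (Filter.inter_mem h1 h2)
  simp only [Set.mem_iInter] at hN1
  -- the numerators
  have hg : ∀ r : ℚ, r ∈ T → ∃ a : ℕ, (a : ℚ) = r * m := by
    intro r hr
    obtain ⟨c, hc⟩ : r.den ∣ m := Finset.dvd_prod_of_mem _ hr
    have h3 : 0 ≤ r := (hT hr).1
    refine ⟨r.num.toNat * c, ?_⟩
    have h4 : ((r.num.toNat : ℕ) : ℚ) = r.num := by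
      have : ((r.num.toNat : ℕ) : ℤ) = r.num := Int.toNat_of_nonneg (Rat.num_nonneg.2 h3)
      exact_mod_cast this
    have h5 : r * r.den = r.num := Rat.mul_den_eq_num r
    rw [hc]
    push_cast
    rw [h4, ← h5]
    ring
  choose! g hg using hg
  set T' := T.image g with hT'
  have hinj : Set.InjOn g T := by
    intro r hr s hs h
    have h3 := hg r hr
    have h4 := hg s hs
    rw [h] at h3
    have h5 : s * (m : ℚ) = r * m := by rw [← h4, ← h3]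
    exact (mul_right_cancel₀ hmQ.ne' h5).symm
  have hcard : T'.card = T.card := card_image_of_injOn hinj
  have h3 : T' ⊆ range m := by
    intro a ha
    rw [hT', mem_image] at ha
    obtain ⟨r, hr, rfl⟩ := ha
    rw [mem_range]
    have h4 : ((g r : ℕ) : ℚ) < m := by
      rw [hg r hr]
      have := (hT hr).2.1
      nlinarith
    exact_mod_cast h4
  have hi : (0 : ℝ) < (i : ℝ) + 1 := by positivity
  have h4 := hN₀ N hN2 x (1 / ((i : ℝ) + 1)) (by positivity) (by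
    rw [div_le_one hi]
    have : (0 : ℝ) ≤ i := Nat.cast_nonneg i
    linarith) T' h3 (by
    intro a ha
    rw [hT', mem_image] at ha
    obtain ⟨r, hr, rfl⟩ := ha
    have h5 : ((g r : ℕ) : ℝ) / (m : ℝ) = (r : ℝ) := by
      have h6 : ((g r : ℕ) : ℚ) / (m : ℚ) = r := by
        rw [hg r hr]
        field_simp
      have h7 := congrArg (Rat.cast : ℚ → ℝ) h6
      push_cast at h7
      exact h7
    rw [h5]
    exact hN1 r hr)
  rw [hcard] at h4
  refine h4.trans (le_of_eq ?_)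
  rw [one_div_one_div, div_div_eq_mul_div, div_one]

lemma bad_finite (S 𝓑 : Finset ℕ) (C : ℝ) (hC : ∀ m ∈ Nat.factoredNumbers S, ∃ N₀ : ℕ, ∀ N : ℕ,
      N₀ ≤ N → ∀ x ε : ℝ, 0 < ε → ε ≤ 1 → ∀ T : Finset ℕ, T ⊆ range m →
        (∀ a ∈ T, ¬ ∀ b ∈ 𝓑, Dis b N (ε * N) (x + a / (m : ℝ))) →
          (T.card : ℝ) ≤ C * ((1 + Real.log (1 / ε)) / ε) ^ 2)
    (U : Ultrafilter ℕ) (hU : (U : Filter ℕ) ≤ atTop) (x : ℝ) (i : ℕ) :
    (Bad S 𝓑 U x i).Finite := by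
  by_contra hinf
  have hinf : (Bad S 𝓑 U x i).Infinite := hinf
  obtain ⟨n, hn⟩ := exists_nat_gt (C * ((1 + Real.log (i + 1)) * (i + 1)) ^ 2)
  obtain ⟨T, hT, hTn⟩ := hinf.exists_subset_card_eq n
  have := card_bad S 𝓑 C hC U hU x i T hT
  rw [hTn] at this
  linarith

/-- **one sequence of stages for countably many numbers** -/
theorem main (S 𝓑 : Finset ℕ) (hS : ∀ q ∈ S, q.Prime) (h𝓑 : ∀ b ∈ 𝓑, 2 ≤ b ∧ ∀ q ∈ S, ¬ q ∣ b) :
    ∃ C : ℝ, ∀ X : Set ℝ, X.Countable → ∀ 𝒩 : Set ℕ, 𝒩.Infinite →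
      ∃ φ : ℕ → ℕ, StrictMono φ ∧ (∀ j, φ j ∈ 𝒩) ∧ ∀ x ∈ X, ∀ ε : ℝ, 0 < ε → ε ≤ 1 →
        ∃ E : Finset ℚ, (E.card : ℝ) ≤ C * ((1 + Real.log (1 / ε)) / ε) ^ 2 ∧
          ∀ r : ℚ, r.den ∈ Nat.factoredNumbers S → Int.fract r ∉ E →
            ∀ᶠ j in atTop, ∀ b ∈ 𝓑, Dis b (φ j) (ε * φ j) (x + r) := by
  classical
  obtain ⟨C, hC0, hC⟩ := count_bad S 𝓑 hS h𝓑
  refine ⟨81 * C, fun X hX 𝒩 h𝒩 => ?_⟩
  have : Countable X := hX.to_subtype
  set f0 : Filter ℕ := atTop ⊓ 𝓟 𝒩 with hf0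
  have hf0ne : NeBot f0 := by
    have h1 : ∃ᶠ n in atTop, n ∈ 𝒩 := Nat.frequently_atTop_iff_infinite.2 h𝒩
    exact frequently_iff_neBot.1 h1
  set U : Ultrafilter ℕ := Ultrafilter.of f0 with hUdef
  have hU0 : (U : Filter ℕ) ≤ f0 := Ultrafilter.of_le f0
  have hU : (U : Filter ℕ) ≤ atTop := hU0.trans inf_le_left
  set B : X × ℕ × ℚ → Set ℕ := fun p => {N | AA 𝓑 p.1 p.2.1 p.2.2 ∈ U →
    N ∈ AA 𝓑 p.1 p.2.1 p.2.2} with hB
  have hBU : ∀ p, B p ∈ U := by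
    intro p
    by_cases hp : AA 𝓑 p.1 p.2.1 p.2.2 ∈ U
    · exact Filter.mem_of_superset hp fun N hN _ => hN
    · have : B p = Set.univ := by
        ext N
        simp only [hB, Set.mem_ofPred_eq, Set.mem_univ, iff_true]
        exact fun h => absurd h hp
      rw [this]
      exact Filter.univ_mem
  set f : Filter ℕ := f0 ⊓ ⨅ p : X × ℕ × ℚ, 𝓟 (B p) with hf
  have hUf : (U : Filter ℕ) ≤ f := le_inf hU0 (le_iInf fun p => le_principal_iff.2 (hBU p))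
  have hfne : NeBot f := U.neBot.mono hUf
  obtain ⟨u, hu⟩ := exists_seq_tendsto f
  have hu1 : Tendsto u atTop atTop := hu.mono_right (inf_le_left.trans inf_le_left)
  obtain ⟨ψ, hψ, hψ2⟩ := strictMono_subseq_of_tendsto_atTop hu1
  have hu2 : Tendsto (u ∘ ψ) atTop f := hu.comp hψ.tendsto_atTop
  have hu3 : ∀ᶠ j in atTop, (u ∘ ψ) j ∈ 𝒩 := by
    have h1 : Tendsto (u ∘ ψ) atTop (𝓟 𝒩) := hu2.mono_right (inf_le_left.trans inf_le_right)
    exact tendsto_principal.1 h1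
  obtain ⟨j0, hj0⟩ := eventually_atTop.1 hu3
  refine ⟨fun j => (u ∘ ψ) (j + j0), fun a b hab => hψ2 (by omega), fun j => hj0 _ (by omega), ?_⟩
  intro x hx ε hε hε1
  set i : ℕ := ⌈1 / ε⌉₊ with hi
  have hi1 : 1 / ε ≤ i := Nat.le_ceil _
  have hi2 : (i : ℝ) + 1 ≤ 3 / ε := by
    have h1 : (i : ℝ) < 1 / ε + 1 := Nat.ceil_lt_add_one (by positivity)
    have h2 : (1 : ℝ) ≤ 1 / ε := by rw [le_div_iff₀ hε]; linarith
    have h3 : 3 / ε = 1 / ε + 1 / ε + 1 / ε := by ring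
    linarith
  have hfin := bad_finite S 𝓑 C hC U hU x i
  refine ⟨hfin.toFinset, ?_, ?_⟩
  · refine (card_bad S 𝓑 C hC U hU x i hfin.toFinset (by simp)).trans ?_
    have hlogε : 0 ≤ Real.log (1 / ε) := Real.log_nonneg (by rw [le_div_iff₀ hε]; linarith)
    have h1 : Real.log (i + 1) ≤ 2 + Real.log (1 / ε) := by
      have h2 : Real.log (i + 1) ≤ Real.log (3 / ε) := Real.log_le_log (by positivity) hi2
      have h3 : (3 : ℝ) / ε = 3 * (1 / ε) := by ring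
      rw [h3, Real.log_mul (by norm_num) (by positivity)] at h2
      have h4 : Real.log 3 ≤ 2 := by
        have h5 : Real.log 3 ≤ Real.log (2 ^ 2) := Real.log_le_log (by norm_num) (by norm_num)
        rw [Real.log_pow] at h5
        have := Real.log_two_lt_d9
        push_cast at h5
        linarith
      linarith
    have h0 : 0 ≤ Real.log ((i : ℝ) + 1) := Real.log_nonneg (by
      have : (0 : ℝ) ≤ i := Nat.cast_nonneg i
      linarith)
    have h6 : (1 + Real.log (i + 1)) * (i + 1) ≤ 9 * ((1 + Real.log (1 / ε)) / ε) := by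
      calc (1 + Real.log (i + 1)) * ((i : ℝ) + 1) ≤ (3 * (1 + Real.log (1 / ε))) * (3 / ε) := by
            apply mul_le_mul (by linarith) hi2 (by positivity) (by linarith)
        _ = _ := by ring
    have h7 := pow_le_pow_left₀ (by positivity) h6 2
    calc C * ((1 + Real.log (i + 1)) * (i + 1)) ^ 2 ≤ C * (9 * ((1 + Real.log (1 / ε)) / ε)) ^ 2 :=
          mul_le_mul_of_nonneg_left h7 hC0
      _ = _ := by ring
  · intro r hr hrE
    have h1 : Int.fract r ∉ Bad S 𝓑 U x i := fun h => hrE (hfin.mem_toFinset.2 h)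
    have h2 : AA 𝓑 x i (Int.fract r) ∈ U := by
      by_contra hcon
      exact h1 ⟨Int.fract_nonneg r, Int.fract_lt_one r, by rw [Rat.den_intFract]; exact hr, hcon⟩
    have h3 : ∀ᶠ j in atTop, (u ∘ ψ) j ∈ B (⟨x, hx⟩, i, Int.fract r) := by
      have h4 : Tendsto (u ∘ ψ) atTop (𝓟 (B (⟨x, hx⟩, i, Int.fract r))) :=
        hu2.mono_right (inf_le_right.trans (iInf_le _ _))
      exact tendsto_principal.1 h4
    have h4 : ∀ᶠ j in atTop, (u ∘ ψ) (j + j0) ∈ B (⟨x, hx⟩, i, Int.fract r) :=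
      (tendsto_add_atTop_nat j0).eventually h3
    filter_upwards [h4] with j hj b hb
    have h5 := (hj h2) b hb
    have h6 : x + (r : ℝ) = x + ((Int.fract r : ℚ) : ℝ) + ((⌊r⌋ : ℤ) : ℝ) := by
      have h7 : ((Int.fract r : ℚ) : ℝ) + ((⌊r⌋ : ℤ) : ℝ) = r := by
        exact_mod_cast congrArg (fun z : ℚ => (z : ℝ)) (Int.fract_add_floor r)
      linarith
    rw [h6]
    apply Dis.add_int
    apply h5.mono
    apply mul_le_mul_of_nonneg_right _ (Nat.cast_nonneg _)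
    rw [div_le_iff₀ (by positivity)]
    rw [div_le_iff₀ hε] at hi1
    nlinarith

end Pool.Agent.R485.TransS
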