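import Pool.Agent.R485.TransS.Abs
import Pool.Agent.R485.TransS.Box

/-!
# Joint distribution of the translates of tuples
-/

set_option autoImplicit false

namespace Pool.Agent.R485.TransS

open Finset Filter Topology

/-- the condition for boxes -/
def JD {d : ℕ} (b N : ℕ) (E : ℝ) (z : Fin d → ℝ) : Prop :=
  ∀ n : ℕ, n ≤ N → ∀ u v : Fin d → ℝ, (∀ l, 0 ≤ u l ∧ u l < v l ∧ v l ≤ 1) →
    |(((Icc 1 n).filter (fun i : ℕ => ∀ l, u l ≤ Int.fract (z l * (b : ℝ) ^ i) ∧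
      Int.fract (z l * (b : ℝ) ^ i) < v l)).card : ℝ) - n * ∏ l, (v l - u l)| ≤ E

/-- the degree -/
noncomputable def K0 (d : ℕ) (ε : ℝ) : ℕ := ⌈48 * d / min ε 1⌉₊ + 1

/-- the bound for the exponential sums -/
noncomputable def Dl (d : ℕ) (ε : ℝ) : ℝ := min ε 1 / (4 * ((2 * (K0 d ε : ℝ) ^ 3 + 1) ^ d + 5 * d))

/-- the index of the bound -/
noncomputable def k0 (d : ℕ) (ε : ℝ) : ℕ := ⌈1 / (Dl d ε * (min ε 1 / 2))⌉₊

/-- the number of bad hyperplanes -/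
noncomputable def KK (S 𝓑 : Finset ℕ) (d : ℕ) (ε : ℝ) : ℝ :=
  (2 * (K0 d ε : ℝ) ^ 3 + 1) ^ d * ∑ b ∈ 𝓑, 100 * CS S b * ((k0 d ε : ℝ) + 1) ^ 2

/-- the frequencies -/
noncomputable def HH (d : ℕ) (ε : ℝ) : Finset (Fin d → ℤ) :=
  (Fintype.piFinset fun _ : Fin d => Icc (-((K0 d ε : ℤ) ^ 3)) ((K0 d ε : ℤ) ^ 3)).filter (· ≠ 0)

lemma card_HH (d : ℕ) (ε : ℝ) : ((HH d ε).card : ℝ) ≤ (2 * (K0 d ε : ℝ) ^ 3 + 1) ^ d := by
  unfold HH
  have h1 : ((Fintype.piFinset fun _ : Fin d =>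
      Icc (-((K0 d ε : ℤ) ^ 3)) ((K0 d ε : ℤ) ^ 3)).filter (· ≠ 0)).card ≤
      (2 * (K0 d ε) ^ 3 + 1) ^ d := by
    refine (card_filter_le _ _).trans ?_
    rw [Fintype.card_piFinset]
    simp only [Int.card_Icc, prod_const, card_univ, Fintype.card_fin]
    apply Nat.pow_le_pow_left
    have : ((K0 d ε : ℤ) ^ 3 + 1 - -((K0 d ε : ℤ) ^ 3)) = ((2 * (K0 d ε) ^ 3 + 1 : ℕ) : ℤ) := by
      push_cast
      ring
    rw [this, Int.toNat_natCast]
  exact_mod_cast h1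

/-- small exponential sums give the condition for boxes -/
lemma JD_of {d : ℕ} (b N : ℕ) (ε : ℝ) (hε : 0 < ε) (z : Fin d → ℝ)
    (h : ∀ h ∈ HH d ε, Mx b N (Dl d ε * (min ε 1 / 2)) (∑ l, (h l : ℝ) * z l)) :
    JD b N (ε * N) z := by
  classical
  intro n hn u v huv
  set ε' := min ε 1 with hε'
  have hε0 : 0 < ε' := lt_min hε one_pos
  have hε1 : ε' ≤ 1 := min_le_right _ _
  have hεε : ε' ≤ ε := min_le_left _ _
  have hnN : (n : ℝ) ≤ N := by exact_mod_cast hn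
  set cnt := ((Icc 1 n).filter (fun i : ℕ => ∀ l, u l ≤ Int.fract (z l * (b : ℝ) ^ i) ∧
      Int.fract (z l * (b : ℝ) ^ i) < v l)).card with hcnt
  have hcn : (cnt : ℝ) ≤ n := by
    have : cnt ≤ n := by
      refine (card_filter_le _ _).trans ?_
      rw [Nat.card_Icc, Nat.add_sub_cancel]
    exact_mod_cast this
  have hp0 : 0 ≤ ∏ l, (v l - u l) := prod_nonneg fun l _ => by linarith [(huv l).2.1]
  have hp1 : ∏ l, (v l - u l) ≤ 1 :=
    prod_le_one (fun l _ => by linarith [(huv l).2.1]) fun l _ => by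
      linarith [(huv l).1, (huv l).2.2]
  have hn0 : (0 : ℝ) ≤ n := Nat.cast_nonneg n
  have hN0 : (0 : ℝ) ≤ N := Nat.cast_nonneg N
  by_cases hsm : (n : ℝ) < ε' / 2 * N
  · have h1 : |(cnt : ℝ) - n * ∏ l, (v l - u l)| ≤ n := by
      rw [abs_le]
      constructor
      · have : (n : ℝ) * ∏ l, (v l - u l) ≤ n := by nlinarith
        linarith [(Nat.cast_nonneg cnt : (0 : ℝ) ≤ cnt)]
      · have : 0 ≤ (n : ℝ) * ∏ l, (v l - u l) := by positivity
        linarith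
    refine h1.trans ?_
    nlinarith
  push Not at hsm
  rcases Nat.eq_zero_or_pos n with rfl | hnpos
  · have : cnt = 0 := by
      rw [hcnt]
      simp
    rw [this]
    simp only [CharP.cast_eq_zero, zero_mul, sub_self, abs_zero]
    positivity
  have hnR : (0 : ℝ) < n := by exact_mod_cast hnpos
  have hK : 0 < K0 d ε := Nat.succ_pos _
  have hK1 : (1 : ℝ) ≤ K0 d ε := by exact_mod_cast hK
  have hDpos : 0 < 4 * ((2 * (K0 d ε : ℝ) ^ 3 + 1) ^ d + 5 * d) := by positivity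
  have hDl : 0 < Dl d ε := div_pos hε0 hDpos
  have h2 := weyl_box hK (Icc 1 n) ⟨1, mem_Icc.2 ⟨le_rfl, hnpos⟩⟩
    (fun i l => z l * (b : ℝ) ^ i) (Dl d ε) hDl.le (by
      intro g hg hgK
      have hgH : g ∈ HH d ε := by
        unfold HH
        rw [mem_filter, Fintype.mem_piFinset]
        refine ⟨fun l => ?_, hg⟩
        rw [mem_Icc]
        exact abs_le.1 (hgK l)
      have h3 := h g hgH n hn
      have h4 : ∑ i ∈ Icc 1 n, Pool.Agent.Y933.KD.e (∑ l, (g l : ℝ) * (z l * (b : ℝ) ^ i)) =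
          ES b 1 0 n (∑ l, (g l : ℝ) * z l) := by
        unfold ES
        have hI : Icc 1 n = Ioc 0 n := by
          ext i
          simp only [mem_Icc, mem_Ioc]
          omega
        rw [hI]
        refine sum_congr rfl fun i _ => ?_
        have h5 : ∑ l, (g l : ℝ) * (z l * (b : ℝ) ^ i) = ((1 : ℕ) : ℝ) *
            ((∑ l, (g l : ℝ) * z l) * (b : ℝ) ^ i) := by
          rw [sum_mul, Nat.cast_one, one_mul]
          exact sum_congr rfl fun l _ => by ring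
        rw [h5]
        rfl
      rw [h4, Nat.card_Icc, Nat.add_sub_cancel]
      refine h3.trans ?_
      have h5 : Dl d ε * (ε' / 2) * N = Dl d ε * (ε' / 2 * N) := by ring
      rw [h5]
      exact mul_le_mul_of_nonneg_left hsm hDl.le)
    u v (fun l => (huv l).1) (fun l => (huv l).2.1.le) (fun l => (huv l).2.2)
  rw [Nat.card_Icc, Nat.add_sub_cancel] at h2
  have h6 : (2 * (K0 d ε : ℝ) ^ 3 + 1) ^ d * Dl d ε + d * (12 / K0 d ε + 5 * Dl d ε) ≤ ε' / 2 := by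
    have e0 : Dl d ε * (4 * ((2 * (K0 d ε : ℝ) ^ 3 + 1) ^ d + 5 * d)) = ε' := by
      unfold Dl
      rw [div_mul_cancel₀ _ hDpos.ne']
    have e1 : ((2 * (K0 d ε : ℝ) ^ 3 + 1) ^ d + 5 * d) * Dl d ε = ε' / 4 := by
      rw [← e0]
      ring
    have e2 : (d : ℝ) * (12 / K0 d ε) ≤ ε' / 4 := by
      have e3 : 48 * (d : ℝ) / ε' ≤ K0 d ε := by
        unfold K0
        push_cast
        have := Nat.le_ceil (48 * (d : ℝ) / min ε 1)
        linarith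
      rw [div_le_iff₀ hε0] at e3
      have e4 : (d : ℝ) * (12 / K0 d ε) = 12 * d / K0 d ε := by ring
      rw [e4, div_le_iff₀ (by linarith)]
      linarith
    have e5 : (2 * (K0 d ε : ℝ) ^ 3 + 1) ^ d * Dl d ε + d * (12 / K0 d ε + 5 * Dl d ε) =
        ((2 * (K0 d ε : ℝ) ^ 3 + 1) ^ d + 5 * d) * Dl d ε + d * (12 / K0 d ε) := by ring
    rw [e5, e1]
    linarith
  refine h2.trans ?_
  calc ((2 * (K0 d ε : ℝ) ^ 3 + 1) ^ d * Dl d ε + d * (12 / K0 d ε + 5 * Dl d ε)) * n ≤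
      ε' / 2 * n := mul_le_mul_of_nonneg_right h6 hn0
    _ ≤ ε * N := by nlinarith

lemma den_sum {d : ℕ} (S : Finset ℕ) (h : Fin d → ℤ) (r : Fin d → ℚ)
    (hr : ∀ l, (r l).den ∈ Nat.factoredNumbers S) :
    (∑ l, (h l : ℚ) * r l).den ∈ Nat.factoredNumbers S := by
  classical
  have key : ∀ T : Finset (Fin d), (∑ l ∈ T, (h l : ℚ) * r l).den ∈ Nat.factoredNumbers S := by
    intro T
    induction T using Finset.induction_on with
    | empty =>
      rw [sum_empty, Nat.mem_factoredNumbers']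
      intro p hp hd
      exact absurd (Nat.dvd_one.1 hd) hp.one_lt.ne'
    | insert a T ha ih =>
      rw [sum_insert ha]
      have h1 : ((h a : ℚ) * r a).den ∈ Nat.factoredNumbers S := by
        apply Nat.mem_factoredNumbers_of_dvd (hr a)
        simpa using Rat.mul_den_dvd (h a : ℚ) (r a)
      exact Nat.mem_factoredNumbers_of_dvd (Nat.mul_mem_factoredNumbers h1 ih)
        (Rat.add_den_dvd _ _)
  exact key univ

/-- **the joint distribution of the translates of tuples** -/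
theorem joint (S 𝓑 : Finset ℕ) (hS : ∀ q ∈ S, q.Prime) (h𝓑 : ∀ b ∈ 𝓑, 2 ≤ b ∧ ∀ q ∈ S, ¬ q ∣ b) :
    ∃ K : ℕ → ℝ → ℝ, ∀ X : Set ℝ, X.Countable → ∀ 𝒩 : Set ℕ, 𝒩.Infinite →
      ∃ φ : ℕ → ℕ, StrictMono φ ∧ (∀ j, φ j ∈ 𝒩) ∧ ∀ (d : ℕ) (x : Fin d → ℝ), (∀ l, x l ∈ X) →
        ∀ ε : ℝ, 0 < ε → ∃ E : Finset ((Fin d → ℤ) × ℚ), (E.card : ℝ) ≤ K d ε ∧
          (∀ p ∈ E, p.1 ≠ 0) ∧ ∀ r : Fin d → ℚ, (∀ l, (r l).den ∈ Nat.factoredNumbers S) →
            (∀ p ∈ E, Int.fract (∑ l, (p.1 l : ℚ) * r l) ≠ p.2) →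
              ∀ᶠ j in atTop, ∀ b ∈ 𝓑, JD b (φ j) (ε * φ j) (fun l => x l + r l) := by
  classical
  refine ⟨KK S 𝓑, fun X hX 𝒩 h𝒩 => ?_⟩
  have : Countable X := hX.to_subtype
  obtain ⟨φ, hφ, hφ𝒩, hmain⟩ := diag (ι := (Σ d : ℕ, (Fin d → X) × (Fin d → ℤ)) × ℕ × 𝓑) (RS S)
    (fun i r N => Mx i.2.2 N (1 / ((i.2.1 : ℝ) + 1))
      ((∑ l, (i.1.2.2 l : ℝ) * (i.1.2.1 l : ℝ)) + r))
    (fun i => 100 * CS S i.2.2 * ((i.2.1 : ℝ) + 1) ^ 2) (by
      intro i T hT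
      obtain ⟨N₀, hN₀⟩ := count_Mx' S i.2.2 (fun q hq => ⟨hS q hq, (h𝓑 _ i.2.2.2).2 q hq⟩)
        (h𝓑 _ i.2.2.2).1 (∑ l, (i.1.2.2 l : ℝ) * (i.1.2.1 l : ℝ)) (1 / ((i.2.1 : ℝ) + 1))
        (by positivity) T hT
      refine ⟨N₀, fun N hN hbad => (hN₀ N hN hbad).trans (le_of_eq ?_)⟩
      rw [one_div_pow, div_div_eq_mul_div, div_one]) 𝒩 h𝒩
  refine ⟨φ, hφ, hφ𝒩, fun d x hx ε hε => ?_⟩
  set x' : Fin d → X := fun l => ⟨x l, hx l⟩ with hx'
  choose E hER hEc hE using hmain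
  set k := k0 d ε with hk
  set EE : Finset ((Fin d → ℤ) × ℚ) := (HH d ε).biUnion fun h => 𝓑.attach.biUnion fun b =>
    (E (⟨d, x', h⟩, k, b)).image fun c => (h, c) with hEE
  refine ⟨EE, ?_, ?_, ?_⟩
  · have h1 : ∀ h ∈ HH d ε, (((𝓑.attach.biUnion fun b =>
        (E (⟨d, x', h⟩, k, b)).image fun c => (h, c)).card : ℕ) : ℝ) ≤
          ∑ b ∈ 𝓑, 100 * CS S b * ((k : ℝ) + 1) ^ 2 := by
      intro h _
      refine (Nat.cast_le.2 card_biUnion_le).trans ?_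
      push_cast
      rw [← sum_attach 𝓑 (fun b => 100 * (CS S b : ℝ) * ((k : ℝ) + 1) ^ 2)]
      refine sum_le_sum fun b _ => ?_
      exact (Nat.cast_le.2 card_image_le).trans (hEc (⟨d, x', h⟩, k, b))
    have h2 : (EE.card : ℝ) ≤ (HH d ε).card * ∑ b ∈ 𝓑, 100 * CS S b * ((k : ℝ) + 1) ^ 2 := by
      refine (Nat.cast_le.2 card_biUnion_le).trans ?_
      push_cast
      refine (sum_le_sum h1).trans ?_
      rw [sum_const, nsmul_eq_mul]
    refine h2.trans ?_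
    unfold KK
    exact mul_le_mul_of_nonneg_right (card_HH d ε) (sum_nonneg fun b _ => by positivity)
  · intro p hp
    rw [hEE, mem_biUnion] at hp
    obtain ⟨h, hh, hp⟩ := hp
    rw [mem_biUnion] at hp
    obtain ⟨b, _, hp⟩ := hp
    rw [mem_image] at hp
    obtain ⟨c, _, rfl⟩ := hp
    exact (mem_filter.1 hh).2
  · intro r hr hrE
    have h1 : ∀ h ∈ HH d ε, ∀ b ∈ 𝓑.attach, ∀ᶠ j in atTop, Mx b (φ j) (1 / ((k : ℝ) + 1))
        ((∑ l, (h l : ℝ) * x l) + ((Int.fract (∑ l, (h l : ℚ) * r l) : ℚ) : ℝ)) := by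
      intro h hh b hb
      refine hE (⟨d, x', h⟩, k, b) (Int.fract (∑ l, (h l : ℚ) * r l)) ?_ ?_
      · exact ⟨Int.fract_nonneg _, Int.fract_lt_one _, by
          rw [Rat.den_intFract]; exact den_sum S h r hr⟩
      · intro hmem
        apply hrE (h, Int.fract (∑ l, (h l : ℚ) * r l)) _ rfl
        rw [hEE, mem_biUnion]
        refine ⟨h, hh, ?_⟩
        rw [mem_biUnion]
        exact ⟨b, hb, mem_image.2 ⟨_, hmem, rfl⟩⟩
    have h2 : ∀ᶠ j in atTop, ∀ h ∈ HH d ε, ∀ b ∈ 𝓑.attach, Mx b (φ j) (1 / ((k : ℝ) + 1))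
        ((∑ l, (h l : ℝ) * x l) + ((Int.fract (∑ l, (h l : ℚ) * r l) : ℚ) : ℝ)) := by
      rw [eventually_all_finset]
      intro h hh
      rw [eventually_all_finset]
      intro b hb
      exact h1 h hh b hb
    filter_upwards [h2] with j hj b hb
    apply JD_of b (φ j) ε hε
    intro h hh
    have h3 := hj h hh ⟨b, hb⟩ (mem_attach _ _)
    have h4 : ∑ l, (h l : ℝ) * (x l + (r l : ℝ)) = (∑ l, (h l : ℝ) * x l) +
        ((Int.fract (∑ l, (h l : ℚ) * r l) : ℚ) : ℝ) + ((⌊∑ l, (h l : ℚ) * r l⌋ : ℤ) : ℝ) := by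
      have h5 := congrArg (Rat.cast : ℚ → ℝ) (Int.fract_add_floor (∑ l, (h l : ℚ) * r l))
      push_cast at h5
      rw [add_assoc]
      have h6 : ((Int.fract (∑ l, (h l : ℚ) * r l) : ℚ) : ℝ) +
          ((⌊∑ l, (h l : ℚ) * r l⌋ : ℤ) : ℝ) = ∑ l, (h l : ℝ) * (r l : ℝ) := by
        rw [← h5]
        push_cast
        rfl
      rw [h6, ← sum_add_distrib]
      exact sum_congr rfl fun l _ => by ring
    rw [h4]
    apply Mx.add_int
    apply h3.mono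
    have hε0 : 0 < min ε 1 := lt_min hε one_pos
    have hpos : 0 < Dl d ε * (min ε 1 / 2) := by
      have : 0 < Dl d ε := by
        unfold Dl
        apply div_pos hε0
        positivity
      positivity
    have h7 : 1 / (Dl d ε * (min ε 1 / 2)) ≤ k := by
      rw [hk]
      exact Nat.le_ceil _
    rw [div_le_iff₀ hpos] at h7
    rw [div_le_iff₀ (by positivity)]
    nlinarith

end Pool.Agent.R485.TransS
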