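import Pool.Agent.R485.TransS.Max

/-!
# The discrepancy of the translates of a real number by rational numbers
-/

set_option autoImplicit false

namespace Pool.Agent.R485.TransS

open Finset Filter Topology
open Pool.Agent.H469R2.NK (e norm_e e_add e_zero conj_e)
open Pool.Agent.R485.Trans (saw_bound indicator_eq)

lemma harm (K : ℕ) : ∑ h ∈ Icc 1 K, (1 : ℝ) / h ≤ 1 + Real.log K := by
  have h3 := harmonic_le_one_add_log K
  rw [harmonic_eq_sum_Icc] at h3
  push_cast at h3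
  refine le_trans (le_of_eq ?_) h3
  exact sum_congr rfl fun h _ => by rw [one_div]

lemma harm_dvd (K d : ℕ) (hd : 1 ≤ d) :
    ∑ h ∈ (Icc 1 K).filter (fun h => d ∣ h), (1 : ℝ) / h ≤ 1 / d * ∑ h ∈ Icc 1 K, (1 : ℝ) / h := by
  classical
  have h1 : (Icc 1 K).filter (fun h => d ∣ h) ⊆ (Icc 1 K).image (fun h => d * h) := by
    intro h hh
    rw [mem_filter, mem_Icc] at hh
    obtain ⟨⟨h1, h2⟩, c, hc⟩ := hh
    rw [mem_image]
    refine ⟨c, mem_Icc.2 ⟨?_, ?_⟩, hc.symm⟩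
    · rcases Nat.eq_zero_or_pos c with rfl | h
      · omega
      · exact h
    · calc c = 1 * c := (one_mul c).symm
        _ ≤ d * c := Nat.mul_le_mul_right _ hd
        _ ≤ K := by omega
  refine (sum_le_sum_of_subset_of_nonneg h1 fun _ _ _ => by positivity).trans (le_of_eq ?_)
  rw [sum_image (fun a _ b _ hab => Nat.eq_of_mul_eq_mul_left (by omega) hab), mul_sum]
  refine sum_congr rfl fun h _ => ?_
  push_cast
  rw [one_div_mul_one_div]

/-- the function `1 / √ n` -/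
noncomputable def invsqrt : ℕ →* ℝ where
  toFun n := 1 / √(n : ℝ)
  map_one' := by simp
  map_mul' a b := by
    push_cast
    rw [Real.sqrt_mul (Nat.cast_nonneg _), one_div_mul_one_div]

lemma exists_const (S : Finset ℕ) : ∃ C : ℝ, 1 ≤ C ∧ ∀ m ∈ Nat.factoredNumbers S,
    ∑ d ∈ m.divisors, 1 / √(d : ℝ) ≤ C := by
  classical
  have h1 := (EulerProduct.summable_and_hasSum_factoredNumbers_prod_filter_prime_geometric
    (f := invsqrt) (fun {p} hp => by
      have : (1 : ℝ) < √(p : ℝ) := by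
        rw [Real.lt_sqrt (by norm_num)]
        simpa using (by exact_mod_cast hp.one_lt : (1 : ℝ) < p)
      show ‖1 / √(p : ℝ)‖ < 1
      rw [Real.norm_of_nonneg (by positivity), div_lt_one (by positivity)]
      exact this) S).1
  have h2 : Summable (fun m : Nat.factoredNumbers S => 1 / √((m : ℕ) : ℝ)) := by
    refine h1.congr fun m => ?_
    show ‖1 / √((m : ℕ) : ℝ)‖ = _
    rw [Real.norm_of_nonneg (by positivity)]
  refine ⟨max 1 (∑' m : Nat.factoredNumbers S, 1 / √((m : ℕ) : ℝ)), le_max_left _ _,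
    fun m hm => ?_⟩
  refine le_trans ?_ (le_max_right _ _)
  have h3 : ∀ d ∈ m.divisors, d ∈ Nat.factoredNumbers S := fun d hd =>
    Nat.mem_factoredNumbers_of_dvd hm (Nat.dvd_of_mem_divisors hd)
  set T : Finset (Nat.factoredNumbers S) := m.divisors.attach.map
    ⟨fun d => ⟨d.1, h3 d.1 d.2⟩, fun a b hab => by
      simp only [Subtype.mk.injEq] at hab
      exact Subtype.ext hab⟩ with hT
  have h4 : ∑ d ∈ m.divisors, 1 / √(d : ℝ) = ∑ d ∈ T, 1 / √((d : ℕ) : ℝ) := by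
    rw [hT, sum_map]
    simp only [Function.Embedding.coeFn_mk]
    exact (sum_attach m.divisors (fun d => 1 / √(d : ℝ))).symm
  rw [h4]
  exact h2.sum_le_tsum T fun d _ => by positivity

lemma weighted (C : ℝ) (m : ℕ) (hm1 : 1 ≤ m) (hC : ∑ d ∈ m.divisors, 1 / √(d : ℝ) ≤ C)
    (H : ℕ) :
    ∑ h ∈ Icc 1 H, √(Nat.gcd m h) / h ≤ C * (1 + Real.log H) := by
  classical
  have hlog : 0 ≤ Real.log H := Real.log_natCast_nonneg H
  have h1 : ∀ h ∈ Icc 1 H, √(Nat.gcd m h : ℝ) / h ≤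
      ∑ d ∈ m.divisors, if d ∣ h then √(d : ℝ) * (1 / (h : ℝ)) else 0 := by
    intro h hh
    have hv : Nat.gcd m h ∈ m.divisors := Nat.mem_divisors.2 ⟨Nat.gcd_dvd_left _ _, by omega⟩
    have h2 := single_le_sum (f := fun d => if d ∣ h then √(d : ℝ) * (1 / (h : ℝ)) else 0)
      (s := m.divisors) (fun v _ => by
        show (0 : ℝ) ≤ if v ∣ h then √(v : ℝ) * (1 / (h : ℝ)) else 0
        split_ifs <;> positivity) hv
    refine le_trans (le_of_eq ?_) h2
    show _ = if Nat.gcd m h ∣ h then √(Nat.gcd m h : ℝ) * (1 / (h : ℝ)) else 0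
    rw [if_pos (Nat.gcd_dvd_right _ _)]
    ring
  refine (sum_le_sum h1).trans ?_
  rw [sum_comm]
  have h2 : ∀ d ∈ m.divisors, ∑ h ∈ Icc 1 H, (if d ∣ h then √(d : ℝ) * (1 / (h : ℝ)) else 0) ≤
      1 / √(d : ℝ) * (1 + Real.log H) := by
    intro d hd
    have hd1 : 1 ≤ d := Nat.pos_of_mem_divisors hd
    have hd0 : (0 : ℝ) < d := by exact_mod_cast hd1
    rw [← sum_filter, ← mul_sum]
    have h3 := harm_dvd H d hd1
    have h4 := harm H
    have h5 : √(d : ℝ) * (1 / d) = 1 / √(d : ℝ) := by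
      have h6 : (d : ℝ) = √(d : ℝ) * √(d : ℝ) := (Real.mul_self_sqrt hd0.le).symm
      have h7 : √(d : ℝ) ≠ 0 := by positivity
      nth_rewrite 2 [h6]
      field_simp
    calc √(d : ℝ) * ∑ h ∈ (Icc 1 H).filter (fun h => d ∣ h), (1 : ℝ) / h ≤
        √(d : ℝ) * (1 / d * ∑ h ∈ Icc 1 H, (1 : ℝ) / h) :=
          mul_le_mul_of_nonneg_left h3 (by positivity)
      _ = √(d : ℝ) * (1 / d) * ∑ h ∈ Icc 1 H, (1 : ℝ) / h := by ring
      _ = 1 / √(d : ℝ) * ∑ h ∈ Icc 1 H, (1 : ℝ) / h := by rw [h5]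
      _ ≤ 1 / √(d : ℝ) * (1 + Real.log H) := mul_le_mul_of_nonneg_left h4 (by positivity)
  refine (sum_le_sum h2).trans ?_
  rw [← sum_mul]
  exact mul_le_mul_of_nonneg_right hC (by linarith)

/-- the sum of the maximal functions -/
noncomputable def TT (b H k : ℕ) (z : ℝ) : ℝ := ∑ h ∈ Icc 1 H, GG b h k z / h

/-- the bound for the deviation -/
noncomputable def Eb (b H k N : ℕ) (z : ℝ) : ℝ := 2 * TT b H k z + 4 * N / √H

/-- the condition -/
def Dis (b N : ℕ) (E z : ℝ) : Prop :=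
  ∀ n : ℕ, n ≤ N → ∀ α β : ℝ, 0 ≤ α → α < β → β ≤ 1 →
    |(((Icc 1 n).filter (fun i : ℕ => α ≤ Int.fract (z * (b : ℝ) ^ i) ∧
      Int.fract (z * (b : ℝ) ^ i) < β)).card : ℝ) - (β - α) * n| ≤ E

lemma dev (b H k N : ℕ) (hH : 1 ≤ H) (hN : N ≤ 2 ^ k) (z : ℝ) : Dis b N (Eb b H k N z) z := by
  classical
  intro n hn α β h0 h1 h2
  have hH0 : (0 : ℝ) < H := by exact_mod_cast hH
  have hH1 : (1 : ℝ) ≤ √H := by
    rw [show (1 : ℝ) = √1 by simp]
    exact Real.sqrt_le_sqrt (by exact_mod_cast hH)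
  have hnN : (n : ℝ) ≤ N := by exact_mod_cast hn
  have key : ∀ γ : ℝ, |∑ i ∈ Icc 1 n, (Int.fract (z * (b : ℝ) ^ i - γ) - 1 / 2)| ≤
      TT b H k z + 2 * N / √H := by
    intro γ
    have h3 := saw_bound (Icc 1 n) (fun i => z * (b : ℝ) ^ i - γ) H hH (1 / √H) (by positivity)
      (by rw [div_le_one (by positivity)]; exact hH1)
    refine h3.trans ?_
    have h4 : ∀ h ∈ Icc 1 H, ‖∑ i ∈ Icc 1 n, e (h * (z * (b : ℝ) ^ i - γ))‖ / h ≤
        GG b h k z / h := by
      intro h _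
      have h5 : ∑ i ∈ Icc 1 n, e (h * (z * (b : ℝ) ^ i - γ)) = e (-(h * γ)) * ES b h 0 n z := by
        have hI : Icc 1 n = Ioc 0 n := by
          ext i
          simp only [mem_Icc, mem_Ioc]
          omega
        rw [ES, mul_sum, hI]
        refine sum_congr rfl fun i _ => ?_
        rw [← e_add]
        congr 1
        ring
      rw [h5, norm_mul, norm_e, one_mul]
      gcongr
      exact chain b h k n (hn.trans hN) z
    have h5 := sum_le_sum h4
    have h6 : (((Icc 1 n).card : ℕ) : ℝ) = n := by rw [Nat.card_Icc, Nat.add_sub_cancel]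
    rw [h6]
    have h7 : (n : ℝ) / (H * (1 / √H)) = n / √H := by
      have h8 : (H : ℝ) = √H * √H := (Real.mul_self_sqrt hH0.le).symm
      have h9 : √(H : ℝ) ≠ 0 := by positivity
      rw [show (H : ℝ) * (1 / √H) = √H by
        nth_rewrite 1 [h8]
        field_simp]
    rw [h7]
    have h8 : (n : ℝ) / √H ≤ N / √H := by gcongr
    have h9 : (n : ℝ) * (1 / √H) = n / √H := by ring
    have h10 : 2 * (N : ℝ) / √H = N / √H + N / √H := by ring
    unfold TT
    rw [h9, h10]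
    linarith
  have h3 : (((Icc 1 n).filter (fun i : ℕ => α ≤ Int.fract (z * (b : ℝ) ^ i) ∧
      Int.fract (z * (b : ℝ) ^ i) < β)).card : ℝ) - (β - α) * n =
      ∑ i ∈ Icc 1 n, (Int.fract (z * (b : ℝ) ^ i - β) - 1 / 2) -
        ∑ i ∈ Icc 1 n, (Int.fract (z * (b : ℝ) ^ i - α) - 1 / 2) := by
    rw [← sum_sub_distrib]
    rw [← sum_congr rfl fun i _ => indicator_eq (z * (b : ℝ) ^ i) α β h0 h1 h2]
    rw [sum_sub_distrib, sum_const, card_filter]
    push_cast
    rw [Nat.card_Icc, Nat.add_sub_cancel, nsmul_eq_mul]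
    ring
  rw [h3]
  refine (abs_sub _ _).trans ?_
  have h4 : Eb b H k N z = 2 * (TT b H k z + 2 * N / √H) := by
    unfold Eb
    ring
  rw [h4]
  linarith [key α, key β]

lemma clog_facts (N : ℕ) (hN : 1 ≤ N) : (2 : ℝ) ^ Nat.clog 2 N ≤ 2 * N ∧
    (Nat.clog 2 N : ℝ) + 1 ≤ 2 * (1 + Real.log N) := by
  have hNR : (1 : ℝ) ≤ N := by exact_mod_cast hN
  set k := Nat.clog 2 N with hk
  have hN2 : (2 : ℝ) ^ k ≤ 2 * N := by
    rcases Nat.lt_or_ge 1 N with h | h
    · have h1 := Nat.pow_pred_clog_lt_self (by norm_num : 1 < 2) h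
      have h2 : 0 < k := Nat.clog_pos (by norm_num) h
      rw [← hk] at h1
      have h3 : (2 : ℝ) ^ k.pred ≤ N := by exact_mod_cast h1.le
      have h4 : (2 : ℝ) ^ k = 2 * 2 ^ k.pred := by
        rw [← pow_succ']
        congr 1
        exact (Nat.succ_pred_eq_of_pos h2).symm
      linarith
    · have h1 : N = 1 := by omega
      rw [hk, h1]
      simp
  refine ⟨hN2, ?_⟩
  have h1 : Real.log ((2 : ℝ) ^ k) ≤ Real.log (2 * N) := Real.log_le_log (by positivity) hN2
  rw [Real.log_pow, Real.log_mul (by norm_num) (by positivity)] at h1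
  have h2 := Real.log_two_gt_d9
  have h3 := Real.log_nonneg hNR
  have h4 : (k : ℝ) ≤ 1 + Real.log N / Real.log 2 := by
    rw [← sub_le_iff_le_add', le_div_iff₀ (by positivity)]
    linarith
  have h5 : Real.log N / Real.log 2 ≤ 2 * Real.log N := by
    rw [div_le_iff₀ (by positivity)]
    nlinarith
  linarith

/-- the quadratic mean of the sum of the maximal functions -/
theorem nrm_TT (S : Finset ℕ) (b : ℕ) (hS : ∀ q ∈ S, q.Prime ∧ ¬ q ∣ b) (hb : 2 ≤ b) (C : ℝ)
    (hC : ∀ m ∈ Nat.factoredNumbers S, ∑ d ∈ m.divisors, 1 / √(d : ℝ) ≤ C) (x : ℝ)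
    (m N H : ℕ) (hm : m ∈ Nat.factoredNumbers S) (hN : 1 ≤ N) :
    nrm m (fun a => TT b H (Nat.clog 2 N) (x + a / (m : ℝ))) ≤
      (8 * √(CS S b) * C * N + 4 * √m * √N * (1 + Real.log N)) * (1 + Real.log H) := by
  have hm1 : 1 ≤ m := Nat.one_le_iff_ne_zero.2 (Nat.ne_zero_of_mem_factoredNumbers hm)
  obtain ⟨hk1, hk2⟩ := clog_facts N hN
  set k := Nat.clog 2 N with hk
  have hlN : 0 ≤ Real.log N := Real.log_natCast_nonneg N
  have hlH : 0 ≤ Real.log H := Real.log_natCast_nonneg H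
  have hN0 : (0 : ℝ) < N := by exact_mod_cast hN
  unfold TT
  refine (nrm_sum (Icc 1 H) m (fun h a => GG b h k (x + a / (m : ℝ)) / h)).trans ?_
  have h2 : ∀ h ∈ Icc 1 H, nrm m (fun a => GG b h k (x + a / (m : ℝ)) / h) ≤
      8 * √(CS S b) * N * (√(Nat.gcd m h) / h) + 4 * √m * √N * (1 + Real.log N) * (1 / h) := by
    intro h hh
    rw [mem_Icc] at hh
    have hh0 : (0 : ℝ) < h := by exact_mod_cast hh.1
    have h3 := mean_GG S b hS hb x m h k hm hh.1
    have h4 : nrm m (fun a => GG b h k (x + a / (m : ℝ)) / h) =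
        1 / h * nrm m (fun a => GG b h k (x + a / (m : ℝ))) := by
      rw [← nrm_mul m (1 / (h : ℝ)) (by positivity)]
      congr 1
      funext a
      ring
    rw [h4]
    have e2 : √2 ^ k ≤ 2 * √N := by
      have h5 : √2 ^ k = √(2 ^ k) := by
        symm
        rw [Real.sqrt_eq_iff_mul_self_eq (by positivity) (by positivity), ← mul_pow,
          Real.mul_self_sqrt (by norm_num)]
      rw [h5]
      apply Real.sqrt_le_iff.2
      refine ⟨by positivity, ?_⟩
      rw [mul_pow, Real.sq_sqrt (by positivity)]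
      linarith
    have e3 : ((k : ℝ) + 1) * √2 ^ k ≤ 2 * (1 + Real.log N) * (2 * √N) := by
      gcongr
    have e1 : 4 * 2 ^ k * (√(Nat.gcd m h) * √(CS S b)) ≤
        4 * (2 * N) * (√(Nat.gcd m h) * √(CS S b)) := by gcongr
    have e4 : √(m : ℝ) * ((k + 1) * √2 ^ k) ≤ √m * (2 * (1 + Real.log N) * (2 * √N)) := by
      gcongr
    calc 1 / (h : ℝ) * nrm m (fun a => GG b h k (x + a / (m : ℝ))) ≤
        1 / (h : ℝ) * (4 * (2 * N) * (√(Nat.gcd m h) * √(CS S b)) +
          √m * (2 * (1 + Real.log N) * (2 * √N))) := by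
          apply mul_le_mul_of_nonneg_left _ (by positivity)
          linarith
      _ = _ := by ring
  refine (sum_le_sum h2).trans ?_
  rw [sum_add_distrib, ← mul_sum, ← mul_sum]
  have h3 := weighted C m hm1 (hC m hm) H
  have h4 := harm H
  have h5 : 8 * √(CS S b) * N * ∑ h ∈ Icc 1 H, √(Nat.gcd m h : ℝ) / h ≤
      8 * √(CS S b) * N * (C * (1 + Real.log H)) := by gcongr
  have h6 : 4 * √m * √N * (1 + Real.log N) * ∑ h ∈ Icc 1 H, (1 : ℝ) / h ≤
      4 * √m * √N * (1 + Real.log N) * (1 + Real.log H) := by gcongr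
  calc _ ≤ 8 * √(CS S b) * N * (C * (1 + Real.log H)) +
      4 * √m * √N * (1 + Real.log N) * (1 + Real.log H) := add_le_add h5 h6
    _ = _ := by ring

/-- **the quadratic mean of the discrepancy of the translates** -/
theorem mean_disc (S : Finset ℕ) (b : ℕ) (hS : ∀ q ∈ S, q.Prime ∧ ¬ q ∣ b) (hb : 2 ≤ b) :
    ∃ C : ℝ, ∀ (x : ℝ) (m N : ℕ), m ∈ Nat.factoredNumbers S → 1 ≤ N → ∃ E : ℕ → ℝ,
      (∀ a : ℕ, Dis b N (E a) (x + a / (m : ℝ))) ∧
      (∑ a ∈ range m, E a ^ 2) / m ≤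
        (C * (1 + Real.log m) * (N / √m + √N * (1 + Real.log N))) ^ 2 := by
  obtain ⟨C0, hC01, hC0⟩ := exists_const S
  refine ⟨16 * √(CS S b) * C0 + 8, fun x m N hm hN => ?_⟩
  have hm1 : 1 ≤ m := Nat.one_le_iff_ne_zero.2 (Nat.ne_zero_of_mem_factoredNumbers hm)
  have hm0 : (0 : ℝ) < m := by exact_mod_cast hm1
  have hN0 : (0 : ℝ) < N := by exact_mod_cast hN
  have hlN : 0 ≤ Real.log N := Real.log_natCast_nonneg N
  have hlm : 0 ≤ Real.log m := Real.log_natCast_nonneg m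
  refine ⟨fun a => Eb b m (Nat.clog 2 N) N (x + a / (m : ℝ)), fun a =>
    dev b m (Nat.clog 2 N) N hm1 (Nat.le_pow_clog (by norm_num) N) _, ?_⟩
  rw [← nrm_sq, div_le_iff₀ hm0]
  have h1 := nrm_TT S b hS hb C0 hC0 x m N m hm hN
  have h2 : nrm m (fun a => Eb b m (Nat.clog 2 N) N (x + a / (m : ℝ))) ≤
      2 * nrm m (fun a => TT b m (Nat.clog 2 N) (x + a / (m : ℝ))) + √m * (4 * N / √m) := by
    unfold Eb
    refine (nrm_add m (fun a => 2 * TT b m (Nat.clog 2 N) (x + a / (m : ℝ)))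
      (fun _ => 4 * N / √m)).trans ?_
    rw [nrm_mul m 2 (by norm_num), nrm_const m _ (by positivity)]
  have hs : √(m : ℝ) * √m = m := Real.mul_self_sqrt hm0.le
  have hs0 : (0 : ℝ) < √(m : ℝ) := by positivity
  have h3 : nrm m (fun a => Eb b m (Nat.clog 2 N) N (x + a / (m : ℝ))) ≤
      √m * ((16 * √(CS S b) * C0 + 8) * (1 + Real.log m) * (N / √m + √N * (1 + Real.log N))) := by
    refine h2.trans ?_
    have e1 : √(m : ℝ) * (4 * N / √m) = 4 * N := by field_simp
    have e2 : √(m : ℝ) * ((16 * √(CS S b) * C0 + 8) * (1 + Real.log m) *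
        (N / √m + √N * (1 + Real.log N))) = (16 * √(CS S b) * C0 + 8) * (1 + Real.log m) *
        (N + √m * √N * (1 + Real.log N)) := by field_simp
    rw [e1, e2]
    set L := 1 + Real.log m with hL
    have hL1 : 1 ≤ L := by linarith
    set A := √(CS S b : ℝ) * C0 with hA
    have hA0 : 0 ≤ A := by positivity
    set Z := √(m : ℝ) * √N * (1 + Real.log N) with hZ
    have hZ0 : 0 ≤ Z := by positivity
    have e3 : 2 * ((8 * √(CS S b) * C0 * N + 4 * √m * √N * (1 + Real.log N)) * L) =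
        16 * A * N * L + 8 * Z * L := by rw [hA, hZ]; ring
    have e4 : (16 * √(CS S b : ℝ) * C0 + 8) * L * (N + Z) =
        16 * A * N * L + 8 * Z * L + (16 * A * Z * L + 8 * N * L) := by rw [hA]; ring
    rw [e4]
    have e5 : 0 ≤ 16 * A * Z * L := by positivity
    have e6 : 4 * (N : ℝ) ≤ 8 * N * L := by nlinarith
    linarith
  have h4 := pow_le_pow_left₀ (nrm_nonneg _ _) h3 2
  refine h4.trans (le_of_eq ?_)
  rw [mul_pow, Real.sq_sqrt hm0.le, mul_comm]

end Pool.Agent.R485.TransS
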