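import Pool.Agent.R485.TransS.Var

/-!
# The maximal inequality
-/

set_option autoImplicit false

namespace Pool.Agent.R485.TransS

open Finset Filter Topology
open Pool.Agent.H469R2.NK (e norm_e e_add e_zero conj_e)

/-- the square root of the sum of the squares -/
noncomputable def nrm (m : ℕ) (f : ℕ → ℝ) : ℝ := √(∑ a ∈ range m, f a ^ 2)

lemma nrm_nonneg (m : ℕ) (f : ℕ → ℝ) : 0 ≤ nrm m f := Real.sqrt_nonneg _

lemma nrm_sq (m : ℕ) (f : ℕ → ℝ) : nrm m f ^ 2 = ∑ a ∈ range m, f a ^ 2 :=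
  Real.sq_sqrt (sum_nonneg fun _ _ => by positivity)

lemma nrm_add (m : ℕ) (f g : ℕ → ℝ) : nrm m (fun a => f a + g a) ≤ nrm m f + nrm m g := by
  apply le_of_sq_le_sq _ (add_nonneg (nrm_nonneg _ _) (nrm_nonneg _ _))
  have h1 : (∑ a ∈ range m, f a * g a) ≤ nrm m f * nrm m g := by
    have h2 := Finset.sum_mul_sq_le_sq_mul_sq (range m) f g
    rw [← nrm_sq m f, ← nrm_sq m g, ← mul_pow] at h2
    exact le_of_sq_le_sq h2 (mul_nonneg (nrm_nonneg _ _) (nrm_nonneg _ _))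
  have h3 : ∑ a ∈ range m, (f a + g a) ^ 2 =
      ∑ a ∈ range m, f a ^ 2 + 2 * ∑ a ∈ range m, f a * g a + ∑ a ∈ range m, g a ^ 2 := by
    rw [mul_sum, ← sum_add_distrib, ← sum_add_distrib]
    exact sum_congr rfl fun a _ => by ring
  rw [nrm_sq, h3, add_sq, nrm_sq, nrm_sq]
  linarith

lemma nrm_sum {ι : Type} (s : Finset ι) (m : ℕ) (f : ι → ℕ → ℝ) :
    nrm m (fun a => ∑ i ∈ s, f i a) ≤ ∑ i ∈ s, nrm m (f i) := by
  classical
  induction s using Finset.induction_on with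
  | empty => simp [nrm]
  | insert i s hi ih =>
    rw [sum_insert hi]
    have : (fun a => ∑ j ∈ insert i s, f j a) = fun a => f i a + ∑ j ∈ s, f j a := by
      funext a
      rw [sum_insert hi]
    rw [this]
    exact (nrm_add m (f i) (fun a => ∑ j ∈ s, f j a)).trans (by linarith)

lemma nrm_mul (m : ℕ) (c : ℝ) (hc : 0 ≤ c) (f : ℕ → ℝ) :
    nrm m (fun a => c * f a) = c * nrm m f := by
  unfold nrm
  have : ∑ a ∈ range m, (c * f a) ^ 2 = c ^ 2 * ∑ a ∈ range m, f a ^ 2 := by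
    rw [mul_sum]
    exact sum_congr rfl fun a _ => by ring
  rw [this, Real.sqrt_mul (by positivity), Real.sqrt_sq hc]

lemma nrm_const (m : ℕ) (c : ℝ) (hc : 0 ≤ c) : nrm m (fun _ => c) = √m * c := by
  unfold nrm
  rw [sum_const, card_range, nsmul_eq_mul, Real.sqrt_mul (by positivity), Real.sqrt_sq hc]

/-- the square function of the level `j` -/
noncomputable def G (b h k j : ℕ) (y : ℝ) : ℝ :=
  √(∑ l ∈ range (2 ^ (k - j)), ‖ES b h (l * 2 ^ j) ((l + 1) * 2 ^ j) y‖ ^ 2)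

lemma G_nonneg (b h k j : ℕ) (y : ℝ) : 0 ≤ G b h k j y := Real.sqrt_nonneg _

lemma ES_sub (b h u v : ℕ) (huv : u ≤ v) (y : ℝ) :
    ES b h 0 v y - ES b h 0 u y = ES b h u v y := by
  unfold ES
  rw [sub_eq_iff_eq_add, add_comm]
  rw [← Finset.sum_Ioc_consecutive _ (Nat.zero_le u) huv]

/-- the maximal function -/
noncomputable def GG (b h k : ℕ) (y : ℝ) : ℝ := ∑ j ∈ range (k + 1), G b h k j y

lemma GG_nonneg (b h k : ℕ) (y : ℝ) : 0 ≤ GG b h k y := sum_nonneg fun _ _ => G_nonneg _ _ _ _ _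

lemma chain (b h k n : ℕ) (hn : n ≤ 2 ^ k) (y : ℝ) : ‖ES b h 0 n y‖ ≤ GG b h k y := by
  set f : ℕ → ℂ := fun j => ES b h 0 (n / 2 ^ j * 2 ^ j) y with hf
  have h0 : ES b h 0 n y = f 0 - f (k + 1) := by
    have h1 : n / 2 ^ (k + 1) = 0 := Nat.div_eq_of_lt (by
      have : 2 ^ k < 2 ^ (k + 1) := Nat.pow_lt_pow_right (by norm_num) (by omega)
      omega)
    simp only [hf, h1, pow_zero, Nat.div_one, mul_one, zero_mul]
    unfold ES
    simp
  rw [h0, ← Finset.sum_range_sub' f (k + 1)]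
  refine (norm_sum_le _ _).trans (sum_le_sum fun j hj => ?_)
  rw [mem_range] at hj
  have hr : n / 2 ^ (j + 1) = n / 2 ^ j / 2 := by rw [pow_succ, Nat.div_div_eq_div_mul]
  have hlt : n / 2 ^ j ≤ 2 ^ (k - j) := by
    apply Nat.div_le_of_le_mul
    rw [← pow_add, show j + (k - j) = k by omega]
    exact hn
  set r := n / 2 ^ j with hrd
  simp only [hf]
  rw [hr, ← hrd]
  rcases Nat.even_or_odd' r with ⟨s, hs | hs⟩
  · have h1 : r / 2 * 2 ^ (j + 1) = r * 2 ^ j := by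
      rw [hs, Nat.mul_div_cancel_left _ (by norm_num), pow_succ]
      ring
    rw [h1, sub_self, norm_zero]
    exact G_nonneg _ _ _ _ _
  · have h1 : r / 2 * 2 ^ (j + 1) = (2 * s) * 2 ^ j := by
      rw [hs, show (2 * s + 1) / 2 = s by omega, pow_succ]
      ring
    rw [h1, ES_sub b h _ _ (Nat.mul_le_mul_right _ (by omega)) y]
    unfold G
    apply Real.le_sqrt_of_sq_le
    have h2 := single_le_sum (f := fun l => ‖ES b h (l * 2 ^ j) ((l + 1) * 2 ^ j) y‖ ^ 2)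
      (s := range (2 ^ (k - j))) (fun l _ => by positivity)
      (mem_range.2 (show 2 * s < 2 ^ (k - j) by omega))
    rw [hs]
    exact h2

lemma sqrt_two_sum (k : ℕ) : ∑ j ∈ range (k + 1), √2 ^ j ≤ 4 * √2 ^ k := by
  have h2 : (4 : ℝ) / 3 ≤ √2 := by
    apply Real.le_sqrt_of_sq_le
    norm_num
  induction k with
  | zero => simp
  | succ k ih =>
    rw [sum_range_succ]
    have h3 : (0 : ℝ) < √2 ^ k := by positivity
    have h4 : √2 ^ (k + 1) = √2 ^ k * √2 := pow_succ _ _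
    rw [h4]
    nlinarith

/-- the quadratic mean of the maximal function -/
theorem mean_GG (S : Finset ℕ) (b : ℕ) (hS : ∀ q ∈ S, q.Prime ∧ ¬ q ∣ b) (hb : 2 ≤ b) (x : ℝ)
    (m h k : ℕ) (hm : m ∈ Nat.factoredNumbers S) (hh : 1 ≤ h) :
    nrm m (fun a => GG b h k (x + a / (m : ℝ))) ≤
      4 * 2 ^ k * (√(Nat.gcd m h) * √(CS S b)) + √m * ((k + 1) * √2 ^ k) := by
  have hm1 : 1 ≤ m := Nat.one_le_iff_ne_zero.2 (Nat.ne_zero_of_mem_factoredNumbers hm)
  have hm0 : (0 : ℝ) < m := by exact_mod_cast hm1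
  set R : ℝ := √(Nat.gcd m h) * √(CS S b) with hR
  have hR0 : 0 ≤ R := by positivity
  have hR2 : R ^ 2 = Nat.gcd m h * CS S b := by
    rw [hR, mul_pow, Real.sq_sqrt (Nat.cast_nonneg _), Real.sq_sqrt (Nat.cast_nonneg _)]
  have hj : ∀ j ∈ range (k + 1), nrm m (fun a => G b h k j (x + a / (m : ℝ))) ≤
      √2 ^ k * √2 ^ j * R + √m * √2 ^ k := by
    intro j hj
    rw [mem_range] at hj
    have e1 : (√2 : ℝ) ^ k * √2 ^ k = 2 ^ k := by
      rw [← mul_pow, Real.mul_self_sqrt (by norm_num)]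
    have e2 : (√2 : ℝ) ^ j * √2 ^ j = 2 ^ j := by
      rw [← mul_pow, Real.mul_self_sqrt (by norm_num)]
    have e3 : √(m : ℝ) * √m = m := Real.mul_self_sqrt hm0.le
    apply le_of_sq_le_sq _ (by positivity)
    rw [nrm_sq]
    have h1 : ∑ a ∈ range m, G b h k j (x + a / (m : ℝ)) ^ 2 ≤
        2 ^ k * 2 ^ j * R ^ 2 + m * 2 ^ k := by
      have h2 : ∀ a : ℕ, G b h k j (x + a / (m : ℝ)) ^ 2 = ∑ l ∈ range (2 ^ (k - j)),
          ‖ES b h (l * 2 ^ j) ((l + 1) * 2 ^ j) (x + a / (m : ℝ))‖ ^ 2 := fun a =>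
        Real.sq_sqrt (sum_nonneg fun _ _ => by positivity)
      simp_rw [h2]
      rw [sum_comm]
      have h3 : ∀ l ∈ range (2 ^ (k - j)), ∑ a ∈ range m,
          ‖ES b h (l * 2 ^ j) ((l + 1) * 2 ^ j) (x + a / (m : ℝ))‖ ^ 2 ≤
            2 ^ j * 2 ^ j * R ^ 2 + m * 2 ^ j := by
        intro l _
        have h4 := variance S b hS hb x m h (l * 2 ^ j) ((l + 1) * 2 ^ j) hm hh
          (Nat.mul_le_mul_right _ (by omega))
        refine h4.trans (le_of_eq ?_)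
        have h5 : (((l + 1) * 2 ^ j : ℕ) : ℝ) - ((l * 2 ^ j : ℕ) : ℝ) = 2 ^ j := by
          push_cast; ring
        rw [h5, hR2]
        field_simp
      refine (sum_le_sum h3).trans (le_of_eq ?_)
      rw [sum_const, card_range, nsmul_eq_mul]
      have h8 : (2 : ℝ) ^ k = 2 ^ (k - j) * 2 ^ j := by
        rw [← pow_add, show k - j + j = k by omega]
      rw [h8]
      push_cast
      ring
    refine h1.trans ?_
    have e4 : (√2 ^ k * √2 ^ j * R + √m * √2 ^ k) ^ 2 =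
        (√2 ^ k * √2 ^ k) * (√2 ^ j * √2 ^ j) * R ^ 2 + (√m * √m) * (√2 ^ k * √2 ^ k) +
          2 * (√2 ^ k * √2 ^ k * √2 ^ j * R * √m) := by ring
    rw [e4, e1, e2, e3]
    have : (0 : ℝ) ≤ 2 * (2 ^ k * √2 ^ j * R * √m) := by positivity
    linarith
  unfold GG
  refine (nrm_sum (range (k + 1)) m (fun j a => G b h k j (x + a / (m : ℝ)))).trans ?_
  refine (sum_le_sum hj).trans ?_
  rw [sum_add_distrib, sum_const, card_range, nsmul_eq_mul]
  push_cast
  have e1 : (√2 : ℝ) ^ k * √2 ^ k = 2 ^ k := by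
    rw [← mul_pow, Real.mul_self_sqrt (by norm_num)]
  have h5 : ∑ j ∈ range (k + 1), √2 ^ k * √2 ^ j * R ≤ 4 * 2 ^ k * R := by
    calc ∑ j ∈ range (k + 1), √2 ^ k * √2 ^ j * R = √2 ^ k * R * ∑ j ∈ range (k + 1), √2 ^ j := by
          rw [mul_sum]
          exact sum_congr rfl fun _ _ => by ring
      _ ≤ √2 ^ k * R * (4 * √2 ^ k) :=
          mul_le_mul_of_nonneg_left (sqrt_two_sum k) (by positivity)
      _ = 4 * 2 ^ k * R := by rw [← e1]; ring
  have h6 : ((k : ℝ) + 1) * (√m * √2 ^ k) = √m * ((k + 1) * √2 ^ k) := by ring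
  linarith

end Pool.Agent.R485.TransS
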