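import Pool.Agent.R485.Trans.Saw

/-!
# The variance of an exponential sum over the translates by the rationals of denominator `m`
-/

set_option autoImplicit false

namespace Pool.Agent.R485.TransS

open Finset Filter Topology
open Pool.Agent.H469R2.NK (e norm_e e_add e_zero conj_e)

/-- the exponent of `q` in `b ^ (2 (q - 1)) - 1` -/
noncomputable def ex (q b : ℕ) : ℕ := padicValNat q (b ^ (2 * (q - 1)) - 1)

lemma val_le (q b k : ℕ) (hq : q.Prime) (hb : 2 ≤ b) (hqb : ¬ q ∣ b) (hk : 1 ≤ k) :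
    padicValNat q (b ^ k - 1) ≤ ex q b + padicValNat q k := by
  have := Fact.mk hq
  have hq1 := hq.two_le
  have h5 : b ^ (2 * (q - 1) * k) - 1 ≠ 0 := by
    have : 1 < b ^ (2 * (q - 1) * k) := Nat.one_lt_pow (by
      have h1 : 0 < 2 * (q - 1) * k := Nat.mul_pos (by omega) (by omega)
      omega) (by omega)
    omega
  have h4 : b ^ k - 1 ∣ b ^ (2 * (q - 1) * k) - 1 := by
    rw [mul_comm, pow_mul]
    have := Nat.sub_dvd_pow_sub_pow (b ^ k) 1 (2 * (q - 1))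
    rwa [one_pow] at this
  have h6 : padicValNat q (b ^ k - 1) ≤ padicValNat q (b ^ (2 * (q - 1) * k) - 1) :=
    (padicValNat_dvd_iff_le h5).1 (pow_padicValNat_dvd.trans h4)
  suffices h7 : padicValNat q (b ^ (2 * (q - 1) * k) - 1) = ex q b + padicValNat q k by omega
  have h1 : 1 < b ^ (2 * (q - 1)) := Nat.one_lt_pow (by omega) (by omega)
  rcases eq_or_ne q 2 with rfl | hq2
  · -- the prime two
    have hodd : ¬ 2 ∣ b := hqb
    have h3 : b ≠ 2 := by rintro rfl; exact hqb (dvd_refl 2)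
    have hb3 : 1 < b := by omega
    have hxy : 2 ∣ b - 1 := by
      have := Nat.odd_iff.1 (Nat.not_even_iff_odd.1 (fun h => hodd h.two_dvd))
      omega
    have e1 := padicValNat.pow_two_sub_pow hb3 hxy hodd (n := 2 * k) (by omega) ⟨k, by ring⟩
    have e2 := padicValNat.pow_two_sub_pow hb3 hxy hodd (n := 2) (by omega) ⟨1, by ring⟩
    rw [one_pow] at e1 e2
    have e3 : padicValNat 2 (2 * k) = 1 + padicValNat 2 k := by
      rw [padicValNat.mul (by norm_num) (by omega), padicValNat.self (by norm_num)]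
    have e4 : padicValNat 2 2 = 1 := padicValNat.self (by norm_num)
    unfold ex
    simp only [show 2 - 1 = 1 by rfl, mul_one]
    omega
  · have hodd : Odd q := hq.odd_of_ne_two hq2
    have h2 : q ∣ b ^ (2 * (q - 1)) - 1 := by
      have hc : (b : ZMod q) ≠ 0 := by
        rwa [Ne, ZMod.natCast_eq_zero_iff]
      have h := ZMod.pow_card_sub_one_eq_one hc
      rw [← ZMod.natCast_eq_zero_iff, Nat.cast_sub h1.le]
      push_cast
      rw [mul_comm, pow_mul, h, one_pow, sub_self]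
    have h3 := padicValNat.pow_sub_pow hodd h1 h2 (fun h => hqb (hq.dvd_of_dvd_pow h)) (n := k)
      (by omega)
    rw [one_pow, ← pow_mul] at h3
    exact h3

/-- the constant -/
noncomputable def CS (S : Finset ℕ) (b : ℕ) : ℕ := ∏ q ∈ S, q ^ ex q b

lemma CS_pos (S : Finset ℕ) (b : ℕ) (hS : ∀ q ∈ S, q.Prime) : 1 ≤ CS S b :=
  Finset.prod_pos fun q hq => pow_pos (hS q hq).pos _

lemma dvd_of (S : Finset ℕ) (b k h m : ℕ) (hS : ∀ q ∈ S, q.Prime ∧ ¬ q ∣ b) (hb : 2 ≤ b)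
    (hh : 1 ≤ h) (hm : m ∈ Nat.factoredNumbers S) (hd : m ∣ h * (b ^ k - 1)) :
    m ∣ h * CS S b * k := by
  rcases Nat.eq_zero_or_pos k with rfl | hk
  · exact dvd_zero _
  rw [Nat.dvd_iff_prime_pow_dvd_dvd]
  intro q j hq hj
  rcases Nat.eq_zero_or_pos j with rfl | hj0
  · exact one_dvd _
  have := Fact.mk hq
  have hqS : q ∈ S := Nat.mem_factoredNumbers'.1 hm q hq ((dvd_pow_self q (by omega)).trans hj)
  have h1 : b ^ k - 1 ≠ 0 := by
    have : 1 < b ^ k := Nat.one_lt_pow (by omega) (by omega)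
    omega
  have h2 := hj.trans hd
  rw [padicValNat_dvd_iff_le (Nat.mul_ne_zero (by omega) h1), padicValNat.mul (by omega) h1] at h2
  have h3 := val_le q b k hq hb (hS q hqS).2 hk
  have h4 : q ^ (padicValNat q h + ex q b + padicValNat q k) ∣ h * CS S b * k := by
    rw [pow_add, pow_add]
    exact mul_dvd_mul (mul_dvd_mul pow_padicValNat_dvd (Finset.dvd_prod_of_mem _ hqS))
      pow_padicValNat_dvd
  exact (pow_dvd_pow q (by omega)).trans h4

/-- the modulus -/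
noncomputable def PP (S : Finset ℕ) (b h m : ℕ) : ℕ := m / Nat.gcd m (h * CS S b)

lemma modEq_of (S : Finset ℕ) (b i j h m : ℕ) (hS : ∀ q ∈ S, q.Prime ∧ ¬ q ∣ b) (hb : 2 ≤ b)
    (hh : 1 ≤ h) (hm : m ∈ Nat.factoredNumbers S)
    (hd : (m : ℤ) ∣ (h : ℤ) * ((b : ℤ) ^ i - (b : ℤ) ^ j)) :
    i ≡ j [MOD PP S b h m] := by
  wlog hij : j ≤ i with H
  · refine (H S b j i h m hS hb hh hm ?_ (by omega)).symm
    have : (h : ℤ) * ((b : ℤ) ^ j - (b : ℤ) ^ i) = -((h : ℤ) * ((b : ℤ) ^ i - (b : ℤ) ^ j)) := by ring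
    rw [this]
    exact (dvd_neg).2 hd
  obtain ⟨k, rfl⟩ := Nat.exists_eq_add_of_le hij
  have h1 : (h : ℤ) * ((b : ℤ) ^ (j + k) - (b : ℤ) ^ j) = ((b ^ j * (h * (b ^ k - 1)) : ℕ) : ℤ) := by
    have : 1 ≤ b ^ k := Nat.one_le_pow _ _ (by omega)
    push_cast [Nat.cast_sub this]
    ring
  rw [h1, Int.natCast_dvd_natCast] at hd
  have hm0 : m ≠ 0 := Nat.ne_zero_of_mem_factoredNumbers hm
  have hcop : Nat.Coprime m (b ^ j) := by
    apply Nat.Coprime.pow_right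
    rw [Nat.coprime_iff_gcd_eq_one]
    by_contra hne
    obtain ⟨q, hq, hqd⟩ := Nat.exists_prime_and_dvd hne
    exact (hS q (Nat.mem_factoredNumbers'.1 hm q hq (hqd.trans (Nat.gcd_dvd_left _ _)))).2
      (hqd.trans (Nat.gcd_dvd_right _ _))
  have h2 := dvd_of S b k h m hS hb hh hm (hcop.dvd_of_dvd_mul_left hd)
  have hg : 0 < Nat.gcd m (h * CS S b) := Nat.gcd_pos_of_pos_left _ (by omega)
  have h3 : PP S b h m ∣ k := by
    have hc := Nat.coprime_div_gcd_div_gcd hg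
    apply hc.dvd_of_dvd_mul_left
    apply Nat.dvd_of_mul_dvd_mul_left hg
    have e1 : Nat.gcd m (h * CS S b) * (m / Nat.gcd m (h * CS S b)) = m :=
      Nat.mul_div_cancel' (Nat.gcd_dvd_left _ _)
    have e2 : Nat.gcd m (h * CS S b) * (h * CS S b / Nat.gcd m (h * CS S b) * k) =
        h * CS S b * k := by
      rw [← mul_assoc, Nat.mul_div_cancel' (Nat.gcd_dvd_right _ _)]
    rw [e1, e2]
    exact h2
  have h4 : j + k ≡ j + 0 [MOD PP S b h m] := Nat.ModEq.add_left j ((Nat.modEq_zero_iff_dvd).2 h3)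
  simpa using h4

lemma PP_pos (S : Finset ℕ) (b h m : ℕ) (hm : 1 ≤ m) : 1 ≤ PP S b h m :=
  Nat.div_pos (Nat.le_of_dvd (by omega) (Nat.gcd_dvd_left _ _))
    (Nat.gcd_pos_of_pos_left _ (by omega))

lemma inv_PP (S : Finset ℕ) (b h m : ℕ) (hS : ∀ q ∈ S, q.Prime) (hm : 1 ≤ m) :
    1 / (PP S b h m : ℝ) ≤ Nat.gcd m h * CS S b / m := by
  have hP : (0 : ℝ) < PP S b h m := by exact_mod_cast PP_pos S b h m hm
  have hm0 : (0 : ℝ) < m := by exact_mod_cast hm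
  rw [div_le_div_iff₀ hP hm0, one_mul]
  have h1 : Nat.gcd m (h * CS S b) ≤ Nat.gcd m h * CS S b := by
    have h2 : Nat.gcd m (h * CS S b) ∣ Nat.gcd m h * Nat.gcd m (CS S b) :=
      Nat.gcd_mul_right_dvd_mul_gcd m h (CS S b)
    have h3 : 0 < Nat.gcd m h * Nat.gcd m (CS S b) :=
      Nat.mul_pos (Nat.gcd_pos_of_pos_left _ (by omega)) (Nat.gcd_pos_of_pos_left _ (by omega))
    refine (Nat.le_of_dvd h3 h2).trans (Nat.mul_le_mul_left _ ?_)
    exact Nat.le_of_dvd (CS_pos S b hS) (Nat.gcd_dvd_right _ _)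
  have h4 : m = Nat.gcd m (h * CS S b) * PP S b h m :=
    (Nat.mul_div_cancel' (Nat.gcd_dvd_left _ _)).symm
  have h5 : (m : ℝ) = Nat.gcd m (h * CS S b) * PP S b h m := by exact_mod_cast h4
  rw [h5]
  apply mul_le_mul_of_nonneg_right _ hP.le
  exact_mod_cast h1

lemma e_int (c : ℤ) : e c = 1 := by
  unfold e
  rw [Complex.exp_eq_one_iff]
  exact ⟨c, by push_cast; ring⟩

lemma e_pow (y : ℝ) (n : ℕ) : e y ^ n = e (n * y) := by
  unfold e
  rw [← Complex.exp_nat_mul]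
  congr 1
  push_cast
  ring

lemma geo (m : ℕ) (hm : 1 ≤ m) (c : ℤ) :
    ‖∑ a ∈ range m, e (c * ((a : ℝ) / m))‖ ≤ if (m : ℤ) ∣ c then (m : ℝ) else 0 := by
  have hm0 : (m : ℝ) ≠ 0 := by positivity
  split_ifs with h
  · refine (norm_sum_le _ _).trans ?_
    rw [sum_congr rfl fun a _ => norm_e _]
    simp
  · have h1 : ∀ a ∈ range m, e (c * ((a : ℝ) / m)) = e ((c : ℝ) / m) ^ a := by
      intro a _
      rw [e_pow]
      congr 1
      ring
    rw [sum_congr rfl h1]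
    have h2 : e ((c : ℝ) / m) ≠ 1 := by
      unfold e
      rw [Ne, Complex.exp_eq_one_iff]
      rintro ⟨n, hn⟩
      apply h
      refine ⟨n, ?_⟩
      have h3 : ((2 * Real.pi * ((c : ℝ) / m) : ℝ) : ℂ) = ((2 * Real.pi * n : ℝ) : ℂ) := by
        have hI : Complex.I ≠ 0 := Complex.I_ne_zero
        apply mul_right_cancel₀ hI
        rw [hn]
        push_cast
        ring
      have h4 : 2 * Real.pi * ((c : ℝ) / m) = 2 * Real.pi * n := Complex.ofReal_injective h3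
      have h5 : (c : ℝ) / m = n := mul_left_cancel₀ (by positivity) h4
      rw [div_eq_iff hm0] at h5
      have h6 : c = n * m := by exact_mod_cast h5
      rw [h6]; ring
    rw [geom_sum_eq h2, e_pow]
    have h3 : (m : ℝ) * ((c : ℝ) / m) = (c : ℝ) := by field_simp
    rw [h3, e_int, sub_self, zero_div, norm_zero]

lemma count_mod (u v P : ℕ) (huv : u ≤ v) (hP : 1 ≤ P) (i : ℕ) :
    (((Ioc u v).filter (fun j => i ≡ j [MOD P])).card : ℝ) ≤ ((v : ℝ) - u) / P + 1 := by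
  have h1 : (Ioc u v).filter (fun j => i ≡ j [MOD P]) = (Ioc u v).filter (fun j => j ≡ i [MOD P]) := by
    ext j
    simp only [mem_filter]
    exact and_congr_right fun _ => ⟨Nat.ModEq.symm, Nat.ModEq.symm⟩
  rw [h1]
  have h2 := Nat.Ioc_filter_modEq_card u v (r := P) (by omega) i
  have h3 : ((((Ioc u v).filter (fun j => j ≡ i [MOD P])).card : ℕ) : ℝ) =
      ((((Ioc u v).filter (fun j => j ≡ i [MOD P])).card : ℤ) : ℝ) := by push_cast; rfl
  rw [h3, h2]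
  have hP0 : (0 : ℝ) < P := by exact_mod_cast hP
  have h4 : (0 : ℝ) ≤ ((v : ℝ) - u) / P + 1 := by
    have : (u : ℝ) ≤ v := by exact_mod_cast huv
    have : 0 ≤ ((v : ℝ) - u) / P := div_nonneg (by linarith) hP0.le
    linarith
  rw [Int.cast_max]
  apply max_le _ (by simpa using h4)
  push_cast
  have h5 := Int.floor_le (((v : ℚ) - i) / P)
  have h6 := Int.lt_floor_add_one (((u : ℚ) - i) / P)
  have h7 : ((⌊((v : ℚ) - i) / P⌋ : ℚ) - ⌊((u : ℚ) - i) / P⌋) ≤ ((v : ℚ) - u) / P + 1 := by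
    have : ((v : ℚ) - u) / P = ((v : ℚ) - i) / P - ((u : ℚ) - i) / P := by ring
    rw [this]
    linarith
  have h8 : (((⌊((v : ℚ) - i) / P⌋ : ℚ) - ⌊((u : ℚ) - i) / P⌋ : ℚ) : ℝ) ≤
    ((((v : ℚ) - u) / P + 1 : ℚ) : ℝ) := by exact_mod_cast h7
  push_cast at h8
  exact h8

/-- the exponential sum -/
noncomputable def ES (b h u v : ℕ) (y : ℝ) : ℂ := ∑ i ∈ Ioc u v, e (h * (y * (b : ℝ) ^ i))

lemma ES_sq (b h u v : ℕ) (y : ℝ) :
    ((‖ES b h u v y‖ ^ 2 : ℝ) : ℂ) =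
      ∑ i ∈ Ioc u v, ∑ j ∈ Ioc u v, e (h * (y * ((b : ℝ) ^ i - (b : ℝ) ^ j))) := by
  have h1 : ((‖ES b h u v y‖ ^ 2 : ℝ) : ℂ) = ES b h u v y * (starRingEnd ℂ) (ES b h u v y) := by
    rw [Complex.mul_conj, Complex.normSq_eq_norm_sq]
  rw [h1]
  unfold ES
  rw [map_sum, sum_mul_sum]
  refine sum_congr rfl fun i _ => sum_congr rfl fun j _ => ?_
  rw [conj_e, ← e_add]
  congr 1
  ring

/-- **the variance** -/
theorem variance (S : Finset ℕ) (b : ℕ) (hS : ∀ q ∈ S, q.Prime ∧ ¬ q ∣ b) (hb : 2 ≤ b) (x : ℝ)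
    (m h u v : ℕ) (hm : m ∈ Nat.factoredNumbers S) (hh : 1 ≤ h) (huv : u ≤ v) :
    ∑ a ∈ range m, ‖ES b h u v (x + a / (m : ℝ))‖ ^ 2 ≤
      m * (((v : ℝ) - u) ^ 2 * (Nat.gcd m h * CS S b / m) + ((v : ℝ) - u)) := by
  classical
  set P := PP S b h m with hP
  have hm1 : 1 ≤ m := Nat.one_le_iff_ne_zero.2 (Nat.ne_zero_of_mem_factoredNumbers hm)
  have hP1 : 1 ≤ P := PP_pos S b h m hm1
  have h1 : ((∑ a ∈ range m, ‖ES b h u v (x + a / (m : ℝ))‖ ^ 2 : ℝ) : ℂ) =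
      ∑ i ∈ Ioc u v, ∑ j ∈ Ioc u v, e (h * (x * ((b : ℝ) ^ i - (b : ℝ) ^ j))) *
        ∑ a ∈ range m, e (((h * ((b : ℤ) ^ i - (b : ℤ) ^ j) : ℤ) : ℝ) * ((a : ℝ) / m)) := by
    rw [Complex.ofReal_sum]
    simp_rw [ES_sq]
    rw [sum_comm]
    refine sum_congr rfl fun i _ => ?_
    rw [sum_comm]
    refine sum_congr rfl fun j _ => ?_
    rw [mul_sum]
    refine sum_congr rfl fun a _ => ?_
    rw [← e_add]
    congr 1
    push_cast
    ring
  have h2 : ∑ a ∈ range m, ‖ES b h u v (x + a / (m : ℝ))‖ ^ 2 =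
      ‖∑ i ∈ Ioc u v, ∑ j ∈ Ioc u v, e (h * (x * ((b : ℝ) ^ i - (b : ℝ) ^ j))) *
        ∑ a ∈ range m, e (((h * ((b : ℤ) ^ i - (b : ℤ) ^ j) : ℤ) : ℝ) * ((a : ℝ) / m))‖ := by
    rw [← h1, Complex.norm_real, Real.norm_eq_abs, abs_of_nonneg]
    exact sum_nonneg fun _ _ => by positivity
  rw [h2]
  have h3 : ∀ i ∈ Ioc u v, ‖∑ j ∈ Ioc u v, e (h * (x * ((b : ℝ) ^ i - (b : ℝ) ^ j))) *
      ∑ a ∈ range m, e (((h * ((b : ℤ) ^ i - (b : ℤ) ^ j) : ℤ) : ℝ) * ((a : ℝ) / m))‖ ≤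
        m * (((v : ℝ) - u) / P + 1) := by
    intro i _
    refine (norm_sum_le _ _).trans ?_
    have h4 : ∀ j ∈ Ioc u v, ‖e (h * (x * ((b : ℝ) ^ i - (b : ℝ) ^ j))) *
        ∑ a ∈ range m, e (((h * ((b : ℤ) ^ i - (b : ℤ) ^ j) : ℤ) : ℝ) * ((a : ℝ) / m))‖ ≤
          if i ≡ j [MOD P] then (m : ℝ) else 0 := by
      intro j _
      rw [norm_mul, norm_e, one_mul]
      refine (geo m hm1 _).trans ?_
      split_ifs with ha hb' hb'
      · exact le_rfl
      · exact absurd (modEq_of S b i j h m hS hb hh hm ha) hb'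
      · positivity
      · exact le_rfl
    refine (sum_le_sum h4).trans ?_
    rw [← sum_filter, sum_const, nsmul_eq_mul, mul_comm]
    exact mul_le_mul_of_nonneg_left (count_mod u v P huv hP1 i) (Nat.cast_nonneg _)
  refine (norm_sum_le _ _).trans ((sum_le_sum h3).trans ?_)
  rw [sum_const, Nat.card_Ioc, nsmul_eq_mul, Nat.cast_sub huv]
  have h5 : ((v : ℝ) - u) * (m * (((v : ℝ) - u) / P + 1)) =
      m * (((v : ℝ) - u) ^ 2 * (1 / P) + ((v : ℝ) - u)) := by ring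
  rw [h5]
  have h6 := inv_PP S b h m (fun q hq => (hS q hq).1) hm1
  gcongr

end Pool.Agent.R485.TransS
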